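import Pool.Agent.helper53.Bru.Defs

/-!
# BRU-1: counting long edges
-/

set_option autoImplicit false

namespace Pool.Agent.helper53.Bru

open SimpleGraph Pool.Agent.helper79.Mst Pool.Agent.helper62.Brd

variable {V : Type} [Fintype V]

open Classical in
private theorem Count_sum (x : V → E3) (r : ℝ) (G : SimpleGraph V) :
    ∑ᶠ e ∈ G.edgeSet, (fun t : ℝ => if r < t then (1 : ℝ) else 0) (edgeLen x e) =
      (({e | e ∈ G.edgeSet ∧ r < edgeLen x e}.ncard : ℕ) : ℝ) := by
  rw [finsum_mem_eq_finite_toFinset_sum _ (Set.toFinite G.edgeSet)]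
  show ∑ e ∈ (Set.toFinite G.edgeSet).toFinset, (if r < edgeLen x e then (1 : ℝ) else 0) = _
  rw [Finset.sum_boole, Set.ncard_eq_toFinset_card _ (Set.toFinite _)]
  congr 2
  ext e
  simp only [Finset.mem_filter, Set.Finite.mem_toFinset, Set.mem_ofPred_eq]

/-- a vertex with the largest value in a component -/
private theorem Count_top {β : Type} [LinearOrder β] (x : V → E3) (r : ℝ) (f : V → β) (v : V) :
    ∃ p : V, (near x r).Reachable v p ∧ ∀ q, dist (x p) (x q) ≤ r → f q ≤ f p := by
  obtain ⟨p, hp, hmax⟩ := Set.exists_max_image {w : V | (near x r).Reachable v w} f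
    (Set.toFinite _) ⟨v, Reachable.refl v⟩
  refine ⟨p, hp, fun q hq => ?_⟩
  by_cases hpq : p = q
  · rw [hpq]
  · have hadj : (near x r).Adj p q := ⟨hpq, hq⟩
    exact hmax q (Reachable.trans hp hadj.reachable)

/-- PROOF. Let `A` be the set on the right hand side and let `G` be the graph `near x r` together
with all edges `s(p, o)`, `p ∈ A` (e.g. `near x r ⊔ SimpleGraph.fromEdgeSet {e | ∃ p ∈ A, e =
s(p, o)}`). `G` is connected: let `v` be a vertex, and let `p` be a vertex with `f p` maximal among
the vertices which are joined to `v` in `near x r` (finite, nonempty set). If `p` is joined to `o`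
in `near x r`, so is `v`. Otherwise `p ∈ A` (if `dist (x p) (x q) ≤ r` then `q = p` or `q` is
adjacent to `p` in `near x r`), so `v`, `p`, `o` are joined in `G`. Apply `mst_sum_le` with
`φ t = if r < t then 1 else 0`: the number of edges of `T` longer than `r` is at most the number of
edges of `G` longer than `r`, and these are among the edges `s(p, o)`, `p ∈ A`. -/
theorem count_far {β : Type} [LinearOrder β] {x : V → E3} {T : SimpleGraph V} (h : IsMST x T)
    (o : V) {r : ℝ} (hr : 0 ≤ r) (f : V → β) :
    {e | e ∈ T.edgeSet ∧ r < edgeLen x e}.ncard ≤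
      {p : V | ¬ (near x r).Reachable p o ∧ ∀ q, dist (x p) (x q) ≤ r → f q ≤ f p}.ncard := by
  classical
  set A : Set V := {p : V | ¬ (near x r).Reachable p o ∧
    ∀ q, dist (x p) (x q) ≤ r → f q ≤ f p} with hA
  set G : SimpleGraph V := near x r ⊔ SimpleGraph.fromEdgeSet {e | ∃ p ∈ A, e = s(p, o)} with hG
  have hle : near x r ≤ G := le_sup_left
  have hro : ∀ v : V, G.Reachable v o := by
    intro v
    obtain ⟨p, hvp, hp⟩ := Count_top x r f v
    by_cases hpo : (near x r).Reachable p o
    · exact (hvp.trans hpo).mono hle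
    · have hpA : p ∈ A := ⟨hpo, hp⟩
      have hne : p ≠ o := by
        rintro rfl
        exact hpo (Reachable.refl _)
      have hadj : G.Adj p o := by
        rw [hG, SimpleGraph.sup_adj, SimpleGraph.fromEdgeSet_adj]
        exact Or.inr ⟨⟨p, hpA, rfl⟩, hne⟩
      exact (hvp.mono hle).trans hadj.reachable
  have hconn : G.Connected := by
    have : Nonempty V := ⟨o⟩
    exact ⟨fun u v => (hro u).trans (hro v).symm⟩
  have hmono : MonotoneOn (fun t : ℝ => if r < t then (1 : ℝ) else 0) (Set.Ici 0) := by
    intro s _ t _ hst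
    show (if r < s then (1 : ℝ) else 0) ≤ if r < t then (1 : ℝ) else 0
    by_cases hs : r < s
    · rw [if_pos hs, if_pos (hs.trans_le hst)]
    · rw [if_neg hs]
      split_ifs
      · exact zero_le_one
      · exact le_rfl
  have h1 := mst_sum_le h hconn hmono (fun t _ => by
    show (0 : ℝ) ≤ if r < t then (1 : ℝ) else 0
    split_ifs
    · exact zero_le_one
    · exact le_rfl)
  rw [Count_sum, Count_sum] at h1
  have h2 : {e | e ∈ T.edgeSet ∧ r < edgeLen x e}.ncard ≤
      {e | e ∈ G.edgeSet ∧ r < edgeLen x e}.ncard := by exact_mod_cast h1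
  refine h2.trans ?_
  have h3 : {e | e ∈ G.edgeSet ∧ r < edgeLen x e} ⊆ (fun p => s(p, o)) '' A := by
    rintro e ⟨he, hlen⟩
    induction e using Sym2.ind with
    | _ u v =>
      have hadj : G.Adj u v := he
      rw [hG, SimpleGraph.sup_adj, SimpleGraph.fromEdgeSet_adj] at hadj
      rcases hadj with hadj | ⟨⟨p, hp, hpe⟩, -⟩
      · exact absurd hadj.2 (not_le.2 hlen)
      · exact ⟨p, hp, hpe.symm⟩
  exact (Set.ncard_le_ncard h3 (Set.toFinite _)).trans (Set.ncard_image_le (Set.toFinite _))

/-- PROOF. `T` is connected so there is a vertex `o`. Use `count_far` and the vertex `p` with `f p`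
maximal among the vertices which are joined to `o` in `near x r`: it is in the set on the right hand
side and it is not in the set of `count_far`. -/
theorem count_all {β : Type} [LinearOrder β] {x : V → E3} {T : SimpleGraph V} (h : IsMST x T)
    {r : ℝ} (hr : 0 ≤ r) (f : V → β) :
    {e | e ∈ T.edgeSet ∧ r < edgeLen x e}.ncard + 1 ≤
      {p : V | ∀ q, dist (x p) (x q) ≤ r → f q ≤ f p}.ncard := by
  obtain ⟨o⟩ := h.1.connected.nonempty
  have h1 := count_far h o hr f
  obtain ⟨p, hop, hp⟩ := Count_top x r f o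
  have h2 : {p : V | ¬ (near x r).Reachable p o ∧ ∀ q, dist (x p) (x q) ≤ r → f q ≤ f p} ⊂
      {p : V | ∀ q, dist (x p) (x q) ≤ r → f q ≤ f p} := by
    rw [Set.ssubset_iff_of_subset (fun q hq => hq.2)]
    exact ⟨p, hp, fun hq => hq.1 hop.symm⟩
  have h3 := Set.ncard_lt_ncard h2 (Set.toFinite _)
  omega

end Pool.Agent.helper53.Bru
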