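import Pool.Agent.helper62.Brd.Mono

/-!
# An upper bound for `ρ_3(α)`, all `α ≥ 3`: definitions
-/

set_option autoImplicit false

namespace Pool.Agent.helper53.Bru

open SimpleGraph MeasureTheory Pool.Agent.helper79.Mst Pool.Agent.helper62.Brd
open scoped ENNReal

/-- Two different points are joined if their distance is at most `r`. -/
def near {V : Type} (x : V → E3) (r : ℝ) : SimpleGraph V where
  Adj u v := u ≠ v ∧ dist (x u) (x v) ≤ r
  symm := ⟨fun _ _ h => ⟨h.1.symm, (_root_.dist_comm _ _).trans_le h.2⟩⟩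
  loopless := ⟨fun _ h => h.1 rfl⟩

/-- The bottleneck distance of `p` and `o`. -/
noncomputable def kap {V : Type} (x : V → E3) (o p : V) : ℝ :=
  sSup {r : ℝ | 0 ≤ r ∧ ¬ (near x r).Reachable p o}

/-- The direction of a vector. -/
noncomputable def dir (v : E3) : E3 := ‖v‖⁻¹ • v

/-- Seen from the origin, `x q` is closer to the direction `z` than `x p`; ties are broken by the
numbers `i`. -/
def Beats {V : Type} (x : V → E3) (i : V → ℕ) (z : E3) (q p : V) : Prop :=
  inner ℝ (dir (x p)) z < inner ℝ (dir (x q)) z ∨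
    (inner ℝ (dir (x p)) z = inner ℝ (dir (x q)) z ∧ i p < i q)

open Classical in
/-- What `p` has to pay for the direction `z`: the smallest of the bottleneck distance to `o` and
the distances to the points which are closer to the direction `z`. -/
noncomputable def cost {V : Type} (x : V → E3) (i : V → ℕ) (o : V) (z : E3) (p : V) : ℝ :=
  ⨅ q : V, if Beats x i z q p then min (kap x o p) (dist (x p) (x q)) else kap x o p

/-- The point of the unit sphere with polar angle `θ`, seen from `u`, in the half plane of `e`. -/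
noncomputable def gam (u e : E3) (θ : ℝ) : E3 := Real.cos θ • u + Real.sin θ • e

/-- The points outside of the ball `B(0, ρ)` which are closer than `ρ` to one of the points. -/
def shell {V : Type} (x : V → E3) (ρ : ℝ) : Set E3 := {y : E3 | ρ < ‖y‖ ∧ ∃ b, dist y (x b) < ρ}

/-- The integral of `τ ^ 2` over the part of the ray in direction `γ` which is in `shell x ρ`. -/
noncomputable def rad {V : Type} (x : V → E3) (ρ : ℝ) (γ : E3) : ℝ≥0∞ :=
  ∫⁻ τ in Set.Ioi (0 : ℝ), ENNReal.ofReal (τ ^ 2) * (shell x ρ).indicator 1 (τ • γ)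

/-- Numerical data for the sector inequality. -/
structure Tab where
  N : ℕ
  c : ℕ → ℝ
  L : ℕ → ℝ
  g : ℕ → ℝ
  X : ℕ → ℝ

/-- The conditions for numerical data. -/
structure Tab.Ok (t : Tab) (K F : ℝ) : Prop where
  c0 : t.c 0 = 1
  cN : 0 ≤ t.c t.N
  anti : ∀ j < t.N, t.c (j + 1) ≤ t.c j
  L0 : ∀ j < t.N, 0 ≤ t.L j
  g0 : ∀ j < t.N, 0 ≤ t.g j
  F0 : 0 ≤ F
  K0 : 0 ≤ K
  X0 : t.X 0 = 0
  X1 : ∀ j < t.N, t.X j + t.L j * (t.c j - t.c (j + 1)) ≤ t.X (j + 1)
  left : ∀ j < t.N, t.X j + (1 - t.c j) / 2 * F + (1 + t.c j) / 2 * t.g j ≤ K * (1 - t.c j)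
  right : ∀ j < t.N, t.X (j + 1) + (1 - t.c (j + 1)) / 2 * F + (1 + t.c (j + 1)) / 2 * t.g j ≤
    K * (1 - t.c (j + 1))
  full : t.X t.N + F ≤ K * (1 - t.c t.N)

end Pool.Agent.helper53.Bru
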