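import Pool.Agent.helper53.Bru.Defs

/-!
# BRU-4: leaving a spherical Voronoi cell along a half great circle
-/

set_option autoImplicit false

namespace Pool.Agent.helper53.Bru

open SimpleGraph MeasureTheory Pool.Agent.helper79.Mst Pool.Agent.helper62.Brd

variable {V : Type} [Fintype V]

private theorem Exit_dir {v : E3} (hv : v ≠ 0) : ‖dir v‖ = 1 := by
  unfold dir
  rw [norm_smul, norm_inv, norm_norm, inv_mul_cancel₀ (norm_ne_zero_iff.2 hv)]

private theorem Exit_inner (v u e : E3) (θ : ℝ) :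
    inner ℝ v (gam u e θ) = Real.cos θ * inner ℝ v u + Real.sin θ * inner ℝ v e := by
  unfold gam
  rw [inner_add_right, inner_smul_right, inner_smul_right]

/-- Bessel -/
private theorem Exit_bessel {u v e : E3} (hu : ‖u‖ = 1) (hv : ‖v‖ = 1) (he : ‖e‖ = 1)
    (hue : inner ℝ u e = 0) : (inner ℝ v u : ℝ) ^ 2 + (inner ℝ v e : ℝ) ^ 2 ≤ 1 := by
  have h := real_inner_self_nonneg (x := v - (inner ℝ v u : ℝ) • u - (inner ℝ v e : ℝ) • e)
  have h1 : (inner ℝ u u : ℝ) = 1 := by rw [real_inner_self_eq_norm_sq, hu]; norm_num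
  have h2 : (inner ℝ v v : ℝ) = 1 := by rw [real_inner_self_eq_norm_sq, hv]; norm_num
  have h3 : (inner ℝ e e : ℝ) = 1 := by rw [real_inner_self_eq_norm_sq, he]; norm_num
  have h4 : (inner ℝ e u : ℝ) = 0 := by rw [real_inner_comm]; exact hue
  have h5 : (inner ℝ u v : ℝ) = inner ℝ v u := real_inner_comm _ _
  have h6 : (inner ℝ e v : ℝ) = inner ℝ v e := real_inner_comm _ _
  simp only [inner_sub_left, inner_sub_right, inner_smul_left, inner_smul_right, h1, h2, h3, h4,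
    h5, h6, hue] at h
  simp at h
  nlinarith

/-- the dichotomy for a unit vector `v` -/
private theorem Exit_up {u v e : E3} (hu : ‖u‖ = 1) (hv : ‖v‖ = 1)
    (hue : inner ℝ u e = 0) {θ θ' : ℝ} (h0 : 0 < θ) (h1 : θ < θ') (h2 : θ' < Real.pi)
    (huv : v ≠ u) (h : (inner ℝ u (gam u e θ) : ℝ) ≤ inner ℝ v (gam u e θ)) :
    (inner ℝ u (gam u e θ') : ℝ) < inner ℝ v (gam u e θ') := by
  have huu : (inner ℝ u u : ℝ) = 1 := by rw [real_inner_self_eq_norm_sq, hu]; norm_num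
  rw [Exit_inner, Exit_inner, huu, hue] at h ⊢
  have hw : (inner ℝ v u : ℝ) < 1 := by
    have h3 : (inner ℝ v u : ℝ) ≤ ‖v‖ * ‖u‖ := real_inner_le_norm _ _
    rw [hu, hv, mul_one] at h3
    rcases h3.lt_or_eq with h4 | h4
    · exact h4
    · exact absurd ((inner_eq_one_iff_of_norm_eq_one hv hu).1 h4) huv
  have hs : 0 < Real.sin θ := Real.sin_pos_of_pos_of_lt_pi h0 (h1.trans h2)
  have hs' : 0 < Real.sin θ' := Real.sin_pos_of_pos_of_lt_pi (h0.trans h1) h2
  have hd : 0 < Real.sin (θ' - θ) := Real.sin_pos_of_pos_of_lt_pi (by linarith) (by linarith)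
  rw [Real.sin_sub] at hd
  set w : ℝ := inner ℝ v u with hwdef
  set a : ℝ := inner ℝ v e with hadef
  have h3 : 0 ≤ (Real.cos θ * w + Real.sin θ * a - Real.cos θ) * Real.sin θ' := by
    apply mul_nonneg _ hs'.le
    linarith
  have h4 : 0 < (1 - w) * (Real.sin θ' * Real.cos θ - Real.cos θ' * Real.sin θ) :=
    mul_pos (by linarith) hd
  have h5 : 0 < (Real.cos θ' * w + Real.sin θ' * a - Real.cos θ') * Real.sin θ := by
    nlinarith
  have h6 := (mul_pos_iff_of_pos_right hs).1 h5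
  linarith

private theorem Exit_dist {u v e : E3} (hu : ‖u‖ = 1) (hv : ‖v‖ = 1) (he : ‖e‖ = 1)
    (hue : inner ℝ u e = 0) {θ : ℝ} (h0 : 0 < θ) (h1 : θ < Real.pi / 2)
    (h : (inner ℝ u (gam u e θ) : ℝ) ≤ inner ℝ v (gam u e θ)) :
    dist u v ≤ 2 * Real.sin θ := by
  have huu : (inner ℝ u u : ℝ) = 1 := by rw [real_inner_self_eq_norm_sq, hu]; norm_num
  rw [Exit_inner, Exit_inner, huu, hue] at h
  have hb := Exit_bessel hu hv he hue
  have hs : 0 < Real.sin θ := Real.sin_pos_of_pos_of_lt_pi h0 (by linarith [Real.pi_pos])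
  have hc : 0 < Real.cos θ := Real.cos_pos_of_mem_Ioo ⟨by linarith [Real.pi_pos], h1⟩
  have hsc := Real.sin_sq_add_cos_sq θ
  have hw1 : (inner ℝ v u : ℝ) ≤ 1 := by
    have h3 : (inner ℝ v u : ℝ) ≤ ‖v‖ * ‖u‖ := real_inner_le_norm _ _
    rwa [hu, hv, mul_one] at h3
  have hd : dist u v ^ 2 = 2 - 2 * inner ℝ v u := by
    rw [dist_eq_norm, @norm_sub_sq_real, hu, hv, real_inner_comm]
    ring
  set w : ℝ := inner ℝ v u with hwdef
  set a : ℝ := inner ℝ v e with hadef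
  have hkey : dist u v ^ 2 ≤ (2 * Real.sin θ) ^ 2 := by
    rw [hd]
    rcases hw1.lt_or_eq with h3 | h3
    · have h4 : (1 - w) * Real.cos θ ≤ a * Real.sin θ := by linarith
      have h5 : 0 ≤ (1 - w) * Real.cos θ := mul_nonneg (by linarith) hc.le
      have h6 : ((1 - w) * Real.cos θ) ^ 2 ≤ (a * Real.sin θ) ^ 2 := by
        apply pow_le_pow_left₀ h5 h4
      have h7 : (a * Real.sin θ) ^ 2 ≤ (1 - w ^ 2) * Real.sin θ ^ 2 := by
        rw [mul_pow]
        apply mul_le_mul_of_nonneg_right _ (sq_nonneg _)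
        linarith
      have h8 : (1 - w) * ((1 - w) * Real.cos θ ^ 2) ≤ (1 - w) * ((1 + w) * Real.sin θ ^ 2) := by
        nlinarith
      have h9 := le_of_mul_le_mul_left h8 (by linarith)
      nlinarith
    · rw [h3]
      nlinarith [sq_nonneg (Real.sin θ)]
  exact (pow_le_pow_iff_left₀ dist_nonneg (by positivity) two_ne_zero).1 hkey

/-- PROOF. Put `u = dir (x p)`, `v = dir (x q)` (unit vectors), `γ θ = gam u e θ`,
`w = inner ℝ u v`, and `g θ = inner ℝ v (γ θ) - inner ℝ u (γ θ) = inner ℝ v e * sin θ -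
(1 - w) * cos θ`. For each `q ∈ S` the set `B q = {θ ∈ (0, π) | Beats x i (γ θ) q p}` is closed
upwards in `(0, π)`: if `v = u` then `g = 0` and `Beats` does not depend on `θ`. If `v ≠ u` then
`w < 1` and for `θ < θ'` in `(0, π)`: `g θ' * sin θ - g θ * sin θ' = (1 - w) * sin (θ' - θ) > 0`, so
`0 ≤ g θ` implies `0 < g θ'`. If all `B q` (`q ∈ S`) are empty take `s = π`. Otherwise take `q ∈ S`
with `B q ≠ ∅` and `sInf (B q)` minimal, `s = sInf (B q)`. For the last claim: for every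
`θ ∈ (s, π / 2)`, `θ ∈ B q` gives `0 ≤ g θ`, so `(1 - w) * cos θ ≤ inner ℝ v e * sin θ`, and
`(inner ℝ v e) ^ 2 ≤ 1 - w ^ 2` (`u`, `e` orthonormal, `‖v‖ = 1`), so (squaring, and dividing by
`1 - w` if `w < 1`) `cos (2 θ) ≤ w`, i.e. `‖u - v‖ ^ 2 = 2 - 2 * w ≤ 4 * sin θ ^ 2`. Let `θ → s`. -/
theorem exit {x : V → E3} {i : V → ℕ} (S : Set V) {p : V} {e : E3} (hp : x p ≠ 0)
    (hS : ∀ q ∈ S, x q ≠ 0) (he : ‖e‖ = 1) (hpe : inner ℝ (dir (x p)) e = 0) :
    ∃ s : ℝ, 0 ≤ s ∧ s ≤ Real.pi ∧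
      (∀ θ, 0 < θ → θ < s → ∀ q ∈ S, ¬ Beats x i (gam (dir (x p)) e θ) q p) ∧
      (s < Real.pi → ∃ q ∈ S,
        (∀ θ, s < θ → θ < Real.pi → Beats x i (gam (dir (x p)) e θ) q p) ∧
        (s < Real.pi / 2 → dist (dir (x p)) (dir (x q)) ≤ 2 * Real.sin s)) := by
  classical
  have hu : ‖dir (x p)‖ = 1 := Exit_dir hp
  have hle : ∀ {z : E3} {q : V}, Beats x i z q p →
      (inner ℝ (dir (x p)) z : ℝ) ≤ inner ℝ (dir (x q)) z := by
    intro z q h
    rcases h with h | h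
    · exact h.le
    · exact h.1.le
  have hup : ∀ q ∈ S, ∀ θ θ' : ℝ, 0 < θ → θ < θ' → θ' < Real.pi →
      Beats x i (gam (dir (x p)) e θ) q p → Beats x i (gam (dir (x p)) e θ') q p := by
    intro q hq θ θ' h0 h1 h2 hb
    by_cases huv : dir (x q) = dir (x p)
    · rcases hb with h | h
      · rw [huv] at h
        exact absurd h (lt_irrefl _)
      · exact Or.inr ⟨by rw [huv], h.2⟩
    · exact Or.inl (Exit_up hu (Exit_dir (hS q hq)) hpe h0 h1 h2 huv (hle hb))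
  set B : V → Set ℝ := fun q =>
    {θ | 0 < θ ∧ θ < Real.pi ∧ Beats x i (gam (dir (x p)) e θ) q p} with hB
  have hbdd : ∀ q, BddBelow (B q) := fun q => ⟨0, fun θ hθ => hθ.1.le⟩
  set T : Finset V := Finset.univ.filter (fun q => q ∈ S ∧ (B q).Nonempty) with hT
  rcases T.eq_empty_or_nonempty with hTe | hTn
  · refine ⟨Real.pi, Real.pi_pos.le, le_rfl, ?_, fun h => absurd h (lt_irrefl _)⟩
    intro θ h0 h1 q hq hb
    have : q ∈ T := Finset.mem_filter.2 ⟨Finset.mem_univ q, hq, ⟨θ, h0, h1, hb⟩⟩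
    rw [hTe] at this
    exact absurd this (Finset.notMem_empty q)
  · obtain ⟨q, hqT, hmin⟩ := T.exists_min_image (fun q => sInf (B q)) hTn
    obtain ⟨-, hqS, hne⟩ := Finset.mem_filter.1 hqT
    have hsπ : sInf (B q) ≤ Real.pi := by
      obtain ⟨θ, hθ⟩ := hne
      exact (csInf_le (hbdd q) hθ).trans hθ.2.1.le
    have hall : ∀ θ, sInf (B q) < θ → θ < Real.pi → Beats x i (gam (dir (x p)) e θ) q p := by
      intro θ h0 h1
      obtain ⟨θ0, hθ0, hlt⟩ := exists_lt_of_csInf_lt hne h0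
      exact hup q hqS θ0 θ hθ0.1 hlt h1 hθ0.2.2
    have hs0 : 0 ≤ sInf (B q) := Real.sInf_nonneg fun θ hθ => hθ.1.le
    refine ⟨sInf (B q), hs0, hsπ, ?_, ?_⟩
    · intro θ h0 h1 q' hq' hb
      have hθ : θ ∈ B q' := ⟨h0, h1.trans_le hsπ, hb⟩
      have h3 := hmin q' (Finset.mem_filter.2 ⟨Finset.mem_univ q', hq', ⟨θ, hθ⟩⟩)
      have h4 := csInf_le (hbdd q') hθ
      exact absurd (h3.trans h4) (not_le.2 h1)
    · intro _
      refine ⟨q, hqS, hall, ?_⟩
      intro hs2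
      have htend : Filter.Tendsto (fun θ : ℝ => 2 * Real.sin θ) (nhdsWithin (sInf (B q))
          (Set.Ioi (sInf (B q)))) (nhds (2 * Real.sin (sInf (B q)))) :=
        ((Real.continuous_sin.const_mul 2).tendsto _).mono_left nhdsWithin_le_nhds
      refine ge_of_tendsto htend ?_
      filter_upwards [Ioo_mem_nhdsGT hs2] with θ hθ
      have h0 : 0 < θ := hs0.trans_lt hθ.1
      exact Exit_dist hu (Exit_dir (hS q hqS)) he hpe h0 hθ.2
        (hle (hall θ hθ.1 (by linarith [hθ.2, Real.pi_pos])))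

end Pool.Agent.helper53.Bru
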