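import Pool.Agent.helper53.Bru.Kap

/-!
# BRU-7: the union of the balls along a ray
-/

set_option autoImplicit false

namespace Pool.Agent.helper53.Bru

open MeasureTheory Pool.Agent.helper79.Mst Pool.Agent.helper62.Brd
open scoped ENNReal

variable {V : Type} [Fintype V]

private theorem Radial_inner (v γ : E3) : inner ℝ v γ = ‖v‖ * inner ℝ (dir v) γ := by
  unfold dir
  rw [real_inner_smul_left]
  rcases eq_or_ne v 0 with rfl | hv
  · simp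
  · have : ‖v‖ ≠ 0 := norm_ne_zero_iff.mpr hv
    field_simp

private theorem Radial_dist_sq (v γ : E3) (hγ : ‖γ‖ = 1) (τ : ℝ) :
    dist (τ • γ) v ^ 2 = τ ^ 2 - 2 * τ * (‖v‖ * inner ℝ (dir v) γ) + ‖v‖ ^ 2 := by
  rw [dist_eq_norm, norm_sub_sq_real, norm_smul, real_inner_smul_left, real_inner_comm,
    Radial_inner v γ, hγ, mul_one, Real.norm_eq_abs, sq_abs]
  ring

private theorem Radial_conv {A E l u t R : ℝ} (h1 : l ≤ t) (h2 : t ≤ u)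
    (hl : l ^ 2 - 2 * l * A + E ≤ R) (hu : u ^ 2 - 2 * u * A + E ≤ R) :
    t ^ 2 - 2 * t * A + E ≤ R := by
  rcases le_total (t + l) (2 * A) with h | h
  · nlinarith [mul_nonneg (sub_nonneg.mpr h1) (sub_nonneg.mpr h)]
  · nlinarith [mul_nonneg (sub_nonneg.mpr h2) (sub_nonneg.mpr h),
      mul_nonneg (sub_nonneg.mpr h2) (sub_nonneg.mpr (h1.trans h2))]

/-- PROOF. If `‖x b‖ < r` then `τ = ‖τ • γ‖ < r + ρ ≤ T`. Otherwise `b` does not beat `p`, so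
`inner ℝ (x b) γ ≤ ‖x b‖ * c`. With `B = ‖x b‖ ∈ [0, 1]`:
`ρ ^ 2 > ‖τ • γ - x b‖ ^ 2 ≥ τ ^ 2 - 2 * τ * B * c + B ^ 2`. Suppose `T < τ`. First case of `hT`:
`τ ^ 2 - 2 τ B c + B ^ 2 - (τ ^ 2 - 2 τ c + 1) = (1 - B) * (2 τ c - 1 - B) ≥ 0` and
`τ ^ 2 - 2 τ c + 1 ≥ T ^ 2 - 2 T c + 1 ≥ ρ ^ 2` as `τ > T ≥ 1 ≥ c` (`T * c ≥ 1`, `c ≤ 1`). Second
case: `τ ^ 2 - 2 τ B c + B ^ 2 ≥ τ ^ 2 * (1 - c ^ 2) ≥ T ^ 2 * (1 - c ^ 2) ≥ ρ ^ 2`. -/
theorem outer {x : V → E3} {i : V → ℕ} {p : V} {r ρ c T : ℝ} (hball : ∀ v, ‖x v‖ ≤ 1)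
    (hr : 0 < r) (hρ : 0 < ρ) (hc0 : 0 ≤ c) (hc1 : c ≤ 1) (hT0 : r + ρ ≤ T)
    (hT : (1 ≤ T * c ∧ ρ ^ 2 ≤ T ^ 2 - 2 * T * c + 1) ∨ ρ ^ 2 ≤ T ^ 2 * (1 - c ^ 2))
    {γ : E3} (hγ : ‖γ‖ = 1) (hcell : ∀ q, r ≤ ‖x q‖ → ¬ Beats x i γ q p)
    (hpc : inner ℝ (dir (x p)) γ ≤ c) {τ : ℝ} (hτ : 0 < τ) {b : V}
    (hb : dist (τ • γ) (x b) < ρ) : τ ≤ T := by
  by_contra hcon
  have hτT : T < τ := not_le.mp hcon
  have hd2 : dist (τ • γ) (x b) ^ 2 < ρ ^ 2 := pow_lt_pow_left₀ hb dist_nonneg two_ne_zero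
  rcases lt_or_ge ‖x b‖ r with h1 | h1
  · have h2 : τ ≤ dist (τ • γ) (x b) + ‖x b‖ := by
      have h3 : ‖τ • γ‖ = τ := by rw [norm_smul, hγ, mul_one, Real.norm_of_nonneg hτ.le]
      have h4 : dist (τ • γ) 0 ≤ dist (τ • γ) (x b) + dist (x b) 0 := dist_triangle _ _ _
      rwa [dist_zero_right, dist_zero_right, h3] at h4
    linarith
  · have h2 := hcell b h1
    have h3 : inner ℝ (dir (x b)) γ ≤ inner ℝ (dir (x p)) γ := by
      by_contra h4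
      exact h2 (Or.inl (not_le.mp h4))
    have h4 : inner ℝ (dir (x b)) γ ≤ c := h3.trans hpc
    have hB0 := norm_nonneg (x b)
    have hB1 := hball b
    rw [Radial_dist_sq (x b) γ hγ τ] at hd2
    set B := ‖x b‖ with hB
    have h5 : τ * (B * inner ℝ (dir (x b)) γ) ≤ τ * (B * c) :=
      mul_le_mul_of_nonneg_left (mul_le_mul_of_nonneg_left h4 hB0) hτ.le
    have h6 : τ ^ 2 - 2 * (τ * (B * c)) + B ^ 2 < ρ ^ 2 := by nlinarith
    rcases hT with ⟨hT1, hT2⟩ | hT2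
    · have hT0' : 0 < T := by linarith
      have hT1' : 1 ≤ T := by nlinarith
      have h7 : 1 ≤ τ * c := hT1.trans (mul_le_mul_of_nonneg_right hτT.le hc0)
      have h8 : 0 ≤ (1 - B) * (2 * (τ * c) - 1 - B) := mul_nonneg (by linarith) (by linarith)
      have h9 : 0 ≤ (τ - T) * (τ + T - 2 * c) := mul_nonneg (by linarith) (by linarith)
      nlinarith
    · have h7 : 0 ≤ (B - τ * c) ^ 2 := sq_nonneg _
      have h8 : 0 ≤ 1 - c ^ 2 := by nlinarith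
      have h9 : T ^ 2 ≤ τ ^ 2 := pow_le_pow_left₀ (by linarith) hτT.le 2
      have h10 := mul_le_mul_of_nonneg_right h9 h8
      nlinarith

/-- PROOF. Suppose `dist (τ • γ) (x b) < ρ`. (1) If `kap x o p ≤ dist (x p) (x b)` then
`dist (τ • γ) (x p) > kap x o p - ρ ≥ k - ρ`. But with `a = ‖x p‖ ∈ [k, 1]` (`kap_le_dist`)
`dist (τ • γ) (x p) ^ 2 = τ ^ 2 - 2 * τ * a * inner ℝ (dir (x p)) γ + a ^ 2 ≤
τ ^ 2 - 2 * τ * a * c₁ + a ^ 2`, which is a convex function of `τ` and of `a`, so it is at most the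
largest value at the four corners `τ ∈ {α, β}`, `a ∈ {k, 1}`, which is `≤ (k - ρ) ^ 2`.
(2) Otherwise `dist (x b) (x o) ≥ kap x o p ≥ k` by `kap_far`, so `B = ‖x b‖ ≥ k ≥ r` and `b` does
not beat `p`, so `dist (τ • γ) (x b) ^ 2 ≥ τ ^ 2 - 2 * τ * B * c₀ + B ^ 2 ≥
τ ^ 2 - 2 * τ * k * c₀ + k ^ 2` (as `τ * c₀ ≤ β * c₀ ≤ k ≤ B`). In the first case of `hβ` this is
decreasing in `τ ≤ β ≤ k * c₀`, so `≥ ρ ^ 2`; in the second case it is
`≥ k ^ 2 * (1 - c₀ ^ 2) ≥ ρ ^ 2`. -/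
theorem hole {x : V → E3} {i : V → ℕ} {o p : V} {r ρ k c₀ c₁ α β : ℝ} (hball : ∀ v, ‖x v‖ ≤ 1)
    (ho : x o = 0) (hr : 0 < r) (hρ : 0 < ρ) (hrk : r ≤ k) (hρk : ρ ≤ k) (hk : k ≤ kap x o p)
    (hc0 : 0 ≤ c₀) (hc0' : c₀ ≤ 1) (hα : 0 < α)
    (h11 : α ^ 2 - 2 * α * k * c₁ + k ^ 2 ≤ (k - ρ) ^ 2)
    (h12 : α ^ 2 - 2 * α * c₁ + 1 ≤ (k - ρ) ^ 2)
    (h21 : β ^ 2 - 2 * β * k * c₁ + k ^ 2 ≤ (k - ρ) ^ 2)
    (h22 : β ^ 2 - 2 * β * c₁ + 1 ≤ (k - ρ) ^ 2)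
    (hβk : β * c₀ ≤ k)
    (hβ : (β ≤ k * c₀ ∧ ρ ^ 2 ≤ β ^ 2 - 2 * β * k * c₀ + k ^ 2) ∨ ρ ^ 2 ≤ k ^ 2 * (1 - c₀ ^ 2))
    {γ : E3} (hγ : ‖γ‖ = 1) (hcell : ∀ q, r ≤ ‖x q‖ → ¬ Beats x i γ q p)
    (hpc0 : inner ℝ (dir (x p)) γ ≤ c₀) (hpc1 : c₁ ≤ inner ℝ (dir (x p)) γ)
    {τ : ℝ} (hτ0 : α < τ) (hτ1 : τ < β) (b : V) : ρ ≤ dist (τ • γ) (x b) := by
  have hτ : 0 < τ := hα.trans hτ0
  have hk0 : 0 < k := hr.trans_le hrk
  have hkp : k ≤ ‖x p‖ := by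
    have := kap_le_dist x o p
    rw [ho, dist_zero_right] at this
    exact hk.trans this
  have hp1 := hball p
  rcases le_or_gt (kap x o p) (dist (x p) (x b)) with h1 | h1
  · have h2 : dist (τ • γ) (x p) ^ 2 ≤ (k - ρ) ^ 2 := by
      rw [Radial_dist_sq (x p) γ hγ τ]
      have h3 : τ * (‖x p‖ * c₁) ≤ τ * (‖x p‖ * inner ℝ (dir (x p)) γ) :=
        mul_le_mul_of_nonneg_left (mul_le_mul_of_nonneg_left hpc1 (norm_nonneg _)) hτ.le
      have h4 : τ ^ 2 - 2 * τ * (k * c₁) + k ^ 2 ≤ (k - ρ) ^ 2 :=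
        Radial_conv hτ0.le hτ1.le (by linarith) (by linarith)
      have h5 : τ ^ 2 - 2 * τ * c₁ + 1 ≤ (k - ρ) ^ 2 :=
        Radial_conv hτ0.le hτ1.le (by linarith) (by linarith)
      have h6 : ‖x p‖ ^ 2 - 2 * ‖x p‖ * (τ * c₁) + τ ^ 2 ≤ (k - ρ) ^ 2 :=
        Radial_conv hkp hp1 (by linarith) (by linarith)
      linarith
    have h3 : dist (τ • γ) (x p) ≤ k - ρ := by
      have := Real.sqrt_le_sqrt h2
      rwa [Real.sqrt_sq dist_nonneg, Real.sqrt_sq (by linarith)] at this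
    have h4 : dist (x p) (x b) ≤ dist (x p) (τ • γ) + dist (τ • γ) (x b) := dist_triangle _ _ _
    rw [dist_comm (x p) (τ • γ)] at h4
    linarith
  · have h2 : kap x o p ≤ dist (x b) (x o) := by
      by_contra h3
      have h4 := kap_far x (not_le.mp h3)
      linarith
    rw [ho, dist_zero_right] at h2
    have hkB : k ≤ ‖x b‖ := hk.trans h2
    have hnb := hcell b (hrk.trans hkB)
    have h3 : inner ℝ (dir (x b)) γ ≤ inner ℝ (dir (x p)) γ := by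
      by_contra h4
      exact hnb (Or.inl (not_le.mp h4))
    have h4 : inner ℝ (dir (x b)) γ ≤ c₀ := h3.trans hpc0
    have h5 : τ * (‖x b‖ * inner ℝ (dir (x b)) γ) ≤ τ * (‖x b‖ * c₀) :=
      mul_le_mul_of_nonneg_left (mul_le_mul_of_nonneg_left h4 (norm_nonneg _)) hτ.le
    have h6 := Radial_dist_sq (x b) γ hγ τ
    set B := ‖x b‖ with hB
    have h7 : τ * c₀ ≤ k := (mul_le_mul_of_nonneg_right hτ1.le hc0).trans hβk
    have h8 : 0 ≤ (B - k) * (B + k - 2 * (τ * c₀)) := mul_nonneg (by linarith) (by linarith)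
    have h9 : ρ ^ 2 ≤ τ ^ 2 - 2 * (τ * (k * c₀)) + k ^ 2 := by
      rcases hβ with ⟨h10, h11⟩ | h10
      · nlinarith [mul_nonneg (sub_nonneg.mpr hτ1.le)
          (by linarith : 0 ≤ 2 * (k * c₀) - τ - β)]
      · nlinarith [sq_nonneg (τ - k * c₀)]
    have h10 : ρ ^ 2 ≤ dist (τ • γ) (x b) ^ 2 := by
      rw [h6]
      nlinarith
    have := Real.sqrt_le_sqrt h10
    rwa [Real.sqrt_sq hρ.le, Real.sqrt_sq dist_nonneg] at this

/-- PROOF. By `hout` and `hin` the indicator is `0` outside of `Ioc ρ α ∪ Icc β T`, and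
`∫ τ in a..b, τ ^ 2 = (b ^ 3 - a ^ 3) / 3`. -/
theorem rad_le {x : V → E3} {ρ α β T : ℝ} {γ : E3} (hγ : ‖γ‖ = 1) (hρ : 0 < ρ) (hρα : ρ ≤ α)
    (hαβ : α ≤ β) (hβT : β ≤ T)
    (hout : ∀ τ : ℝ, 0 < τ → ∀ b, dist (τ • γ) (x b) < ρ → τ ≤ T)
    (hin : ∀ τ : ℝ, α < τ → τ < β → ∀ b, ρ ≤ dist (τ • γ) (x b)) :
    12 * rad x ρ γ ≤ ENNReal.ofReal (4 * (T ^ 3 - ρ ^ 3 - (β ^ 3 - α ^ 3))) := by
  have hI : ∀ a b : ℝ, 0 < a → a ≤ b →
      ∫⁻ τ in Set.Ioc a b, ENNReal.ofReal (τ ^ 2) = ENNReal.ofReal ((b ^ 3 - a ^ 3) / 3) := by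
    intro a b ha hab
    have h1 : IntegrableOn (fun τ : ℝ => τ ^ 2) (Set.Ioc a b) :=
      ((continuous_pow 2).integrableOn_Icc).mono_set Set.Ioc_subset_Icc_self
    rw [← ofReal_integral_eq_lintegral_ofReal h1 (Filter.Eventually.of_forall fun τ => sq_nonneg τ),
      ← intervalIntegral.integral_of_le hab, integral_pow]
    norm_num
  have h1 : rad x ρ γ ≤ ∫⁻ τ in Set.Ioc ρ α ∪ Set.Icc β T, ENNReal.ofReal (τ ^ 2) := by
    unfold rad
    rw [← lintegral_indicator (measurableSet_Ioc.union measurableSet_Icc),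
      ← lintegral_indicator measurableSet_Ioi]
    refine lintegral_mono fun τ => ?_
    by_cases hτ : τ ∈ Set.Ioi (0 : ℝ)
    · rw [Set.indicator_of_mem hτ]
      by_cases hs : τ • γ ∈ shell x ρ
      · have hτ' : 0 < τ := hτ
        have h2 : ‖τ • γ‖ = τ := by rw [norm_smul, hγ, mul_one, Real.norm_of_nonneg hτ'.le]
        obtain ⟨h3, b, h4⟩ := hs
        rw [h2] at h3
        have h5 := hout τ hτ' b h4
        have h6 : τ ∈ Set.Ioc ρ α ∪ Set.Icc β T := by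
          rcases le_or_gt τ α with h7 | h7
          · exact Or.inl ⟨h3, h7⟩
          · rcases lt_or_ge τ β with h8 | h8
            · exact absurd h4 (not_lt.mpr (hin τ h7 h8 b))
            · exact Or.inr ⟨h8, h5⟩
        rw [Set.indicator_of_mem h6]
        calc ENNReal.ofReal (τ ^ 2) * (shell x ρ).indicator 1 (τ • γ)
            ≤ ENNReal.ofReal (τ ^ 2) * 1 := by
              gcongr
              exact Set.indicator_le_self' (fun _ _ => zero_le) _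
          _ = _ := mul_one _
      · rw [Set.indicator_of_notMem hs, mul_zero]
        exact zero_le
    · rw [Set.indicator_of_notMem hτ]
      exact zero_le
  have h2 : ∫⁻ τ in Set.Ioc ρ α ∪ Set.Icc β T, ENNReal.ofReal (τ ^ 2) ≤
      ENNReal.ofReal ((α ^ 3 - ρ ^ 3) / 3) + ENNReal.ofReal ((T ^ 3 - β ^ 3) / 3) := by
    refine (lintegral_union_le _ _ _).trans ?_
    rw [hI ρ α hρ hρα, setLIntegral_congr Ioc_ae_eq_Icc.symm, hI β T (by linarith) hβT]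
  have h3 : ρ ^ 3 ≤ α ^ 3 := pow_le_pow_left₀ hρ.le hρα 3
  have h4 : β ^ 3 ≤ T ^ 3 := pow_le_pow_left₀ (by linarith) hβT 3
  calc 12 * rad x ρ γ ≤ 12 * (ENNReal.ofReal ((α ^ 3 - ρ ^ 3) / 3) +
        ENNReal.ofReal ((T ^ 3 - β ^ 3) / 3)) := by
        gcongr
        exact h1.trans h2
    _ = ENNReal.ofReal (4 * (T ^ 3 - ρ ^ 3 - (β ^ 3 - α ^ 3))) := by
        rw [← ENNReal.ofReal_add (by linarith) (by linarith),
          show (12 : ℝ≥0∞) = ENNReal.ofReal 12 by norm_num,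
          ← ENNReal.ofReal_mul (by norm_num)]
        congr 1
        ring

/-- PROOF. `shell x ρ` is open, in particular measurable; `Measurable.lintegral_prod_right'`. -/
theorem measurable_rad (x : V → E3) (ρ : ℝ) (u e : E3) :
    Measurable fun θ => rad x ρ (gam u e θ) := by
  have hopen : IsOpen (shell x ρ) := by
    have h1 : shell x ρ = {y | ρ < ‖y‖} ∩ ⋃ b, {y | dist y (x b) < ρ} := by
      ext y
      simp [shell]
    rw [h1]
    refine (isOpen_lt continuous_const continuous_norm).inter (isOpen_iUnion fun b => ?_)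
    exact isOpen_lt (continuous_id.dist continuous_const) continuous_const
  have hm : Measurable ((shell x ρ).indicator (1 : E3 → ℝ≥0∞)) :=
    measurable_one.indicator hopen.measurableSet
  have hc : Continuous fun q : ℝ × ℝ => q.2 • gam u e q.1 := by
    unfold gam
    fun_prop
  have hF : Measurable fun q : ℝ × ℝ =>
      ENNReal.ofReal (q.2 ^ 2) * (shell x ρ).indicator 1 (q.2 • gam u e q.1) :=
    (ENNReal.measurable_ofReal.comp (by fun_prop)).mul (hm.comp hc.measurable)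
  exact hF.lintegral_prod_right'

end Pool.Agent.helper53.Bru
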