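import Pool.Agent.helper53.Bru.Defs

/-!
# BRU-6: the sector inequality from numerical data
-/

set_option autoImplicit false

namespace Pool.Agent.helper53.Bru

open MeasureTheory
open scoped ENNReal

/-- Integral of the sine. -/
private theorem Sect_sin {a b : ℝ} (ha : 0 ≤ a) (hab : a ≤ b) (hb : b ≤ Real.pi) :
    ∫⁻ θ in Set.Ioo a b, ENNReal.ofReal (Real.sin θ) =
      ENNReal.ofReal (Real.cos a - Real.cos b) := by
  rw [← ofReal_integral_eq_lintegral_ofReal]
  · rw [← integral_Ioc_eq_integral_Ioo, ← intervalIntegral.integral_of_le hab, integral_sin]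
  · exact ((Real.continuous_sin.intervalIntegrable a b).1).mono_set Set.Ioo_subset_Ioc_self
  · refine (ae_restrict_iff' measurableSet_Ioo).2 (Filter.Eventually.of_forall fun θ hθ => ?_)
    exact Real.sin_nonneg_of_nonneg_of_le_pi (ha.trans hθ.1.le) (hθ.2.le.trans hb)

/-- Bound for an integral over an interval. -/
private theorem Sect_le {a b : ℝ} (ha : 0 ≤ a) (hab : a ≤ b) (hb : b ≤ Real.pi) {f : ℝ → ℝ≥0∞}
    {c : ℝ} (hf : ∀ θ, a < θ → θ < b → f θ ≤ ENNReal.ofReal c) :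
    ∫⁻ θ in Set.Ioo a b, ENNReal.ofReal (Real.sin θ) * f θ ≤
      ENNReal.ofReal ((Real.cos a - Real.cos b) * c) := by
  have hcos : Real.cos b ≤ Real.cos a := Real.cos_le_cos_of_nonneg_of_le_pi ha hb hab
  calc ∫⁻ θ in Set.Ioo a b, ENNReal.ofReal (Real.sin θ) * f θ
      ≤ ∫⁻ θ in Set.Ioo a b, ENNReal.ofReal (Real.sin θ) * ENNReal.ofReal c :=
        setLIntegral_mono' measurableSet_Ioo fun θ hθ => by gcongr; exact hf θ hθ.1 hθ.2
    _ = ENNReal.ofReal (Real.cos a - Real.cos b) * ENNReal.ofReal c := by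
        rw [lintegral_mul_const' _ _ ENNReal.ofReal_ne_top, Sect_sin ha hab hb]
    _ = ENNReal.ofReal ((Real.cos a - Real.cos b) * c) :=
        (ENNReal.ofReal_mul (by linarith)).symm

/-- Splitting an interval. -/
private theorem Sect_split (a b c : ℝ) (f : ℝ → ℝ≥0∞) :
    ∫⁻ θ in Set.Ioo a c, f θ ≤ (∫⁻ θ in Set.Ioo a b, f θ) + ∫⁻ θ in Set.Ioo b c, f θ := by
  have h1 : Set.Ioo a c ⊆ Set.Ioc a b ∪ Set.Ioo b c := fun x hx => by
    rcases le_or_gt x b with h | h
    · exact Or.inl ⟨hx.1, h⟩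
    · exact Or.inr ⟨h, hx.2⟩
  calc ∫⁻ θ in Set.Ioo a c, f θ ≤ ∫⁻ θ in Set.Ioc a b ∪ Set.Ioo b c, f θ :=
        lintegral_mono_set h1
    _ ≤ (∫⁻ θ in Set.Ioc a b, f θ) + ∫⁻ θ in Set.Ioo b c, f θ := lintegral_union_le _ _ _
    _ = _ := by rw [setLIntegral_congr (Ioo_ae_eq_Ioc (μ := volume) (a := a) (b := b))]

/-- The numbers `c j` are in `[0, 1]`. -/
private theorem Sect_c {t : Tab} {K F : ℝ} (h : t.Ok K F) {j : ℕ} (hj : j ≤ t.N) :
    0 ≤ t.c j ∧ t.c j ≤ 1 := by
  constructor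
  · have key : ∀ k, k ≤ t.N → 0 ≤ t.c (t.N - k) := by
      intro k
      induction k with
      | zero => intro _; simpa using h.cN
      | succ k ih =>
        intro hk
        have h1 := h.anti (t.N - (k + 1)) (by omega)
        rw [show t.N - (k + 1) + 1 = t.N - k by omega] at h1
        exact (ih (by omega)).trans h1
    have := key (t.N - j) (by omega)
    rwa [show t.N - (t.N - j) = j by omega] at this
  · induction j with
    | zero => exact h.c0.le
    | succ j ih => exact (h.anti j (by omega)).trans (ih (by omega))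

/-- The numbers `X j` are not negative. -/
private theorem Sect_X {t : Tab} {K F : ℝ} (h : t.Ok K F) {j : ℕ} (hj : j ≤ t.N) :
    0 ≤ t.X j := by
  induction j with
  | zero => exact h.X0.ge
  | succ j ih =>
    have h1 := h.X1 j (by omega)
    have h2 := mul_nonneg (h.L0 j (by omega)) (sub_nonneg.2 (h.anti j (by omega)))
    linarith [ih (by omega)]

/-- One more interval. -/
private theorem Sect_step {l : ℝ → ℝ≥0∞} {a b X c : ℝ} (ha : 0 ≤ a) (hab : a ≤ b)
    (hb : b ≤ Real.pi) (hX : 0 ≤ X) (hc : 0 ≤ c)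
    (hM : 12 * (∫⁻ θ in Set.Ioo 0 a, ENNReal.ofReal (Real.sin θ) * l θ) ≤ ENNReal.ofReal X)
    (hl : ∀ θ, a < θ → θ < b → 12 * l θ ≤ ENNReal.ofReal c) :
    12 * (∫⁻ θ in Set.Ioo 0 b, ENNReal.ofReal (Real.sin θ) * l θ) ≤
      ENNReal.ofReal (X + c * (Real.cos a - Real.cos b)) := by
  have hcos : Real.cos b ≤ Real.cos a := Real.cos_le_cos_of_nonneg_of_le_pi ha hb hab
  have h12 : (12 : ℝ≥0∞) ≠ ⊤ := by norm_num
  have h2 : 12 * (∫⁻ θ in Set.Ioo a b, ENNReal.ofReal (Real.sin θ) * l θ) ≤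
      ENNReal.ofReal ((Real.cos a - Real.cos b) * c) := by
    rw [← lintegral_const_mul' _ _ h12]
    refine le_trans (le_of_eq ?_) (Sect_le (f := fun θ => 12 * l θ) ha hab hb hl)
    refine lintegral_congr fun θ => ?_
    ring
  calc 12 * (∫⁻ θ in Set.Ioo 0 b, ENNReal.ofReal (Real.sin θ) * l θ)
      ≤ 12 * ((∫⁻ θ in Set.Ioo 0 a, ENNReal.ofReal (Real.sin θ) * l θ) +
          ∫⁻ θ in Set.Ioo a b, ENNReal.ofReal (Real.sin θ) * l θ) := by
        gcongr
        exact Sect_split 0 a b _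
    _ = 12 * (∫⁻ θ in Set.Ioo 0 a, ENNReal.ofReal (Real.sin θ) * l θ) +
          12 * ∫⁻ θ in Set.Ioo a b, ENNReal.ofReal (Real.sin θ) * l θ := mul_add _ _ _
    _ ≤ ENNReal.ofReal X + ENNReal.ofReal ((Real.cos a - Real.cos b) * c) := add_le_add hM h2
    _ = ENNReal.ofReal (X + c * (Real.cos a - Real.cos b)) := by
        rw [← ENNReal.ofReal_add hX (mul_nonneg (by linarith) hc), mul_comm c]

/-- The sum over the steps. -/
private theorem Sect_M {t : Tab} {K F : ℝ} (h : t.Ok K F) {s : ℝ} {l : ℝ → ℝ≥0∞}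
    (h1 : ∀ θ, 0 < θ → θ < s → ∀ j < t.N, t.c (j + 1) ≤ Real.cos θ → Real.cos θ ≤ t.c j →
      12 * l θ ≤ ENNReal.ofReal (t.L j)) {j : ℕ} (hj : j ≤ t.N) (hjs : Real.arccos (t.c j) ≤ s) :
    12 * (∫⁻ θ in Set.Ioo 0 (Real.arccos (t.c j)), ENNReal.ofReal (Real.sin θ) * l θ) ≤
      ENNReal.ofReal (t.X j) := by
  induction j with
  | zero =>
    rw [h.c0, Real.arccos_one]
    simp
  | succ j ih =>
    have hanti := h.anti j (by omega)
    have hle : Real.arccos (t.c j) ≤ Real.arccos (t.c (j + 1)) := Real.arccos_le_arccos hanti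
    have c1 := Sect_c h (j := j) (by omega)
    have c2 := Sect_c h (j := j + 1) hj
    have e1 : Real.cos (Real.arccos (t.c j)) = t.c j := Real.cos_arccos (by linarith) c1.2
    have e2 : Real.cos (Real.arccos (t.c (j + 1))) = t.c (j + 1) :=
      Real.cos_arccos (by linarith) c2.2
    refine (Sect_step (Real.arccos_nonneg _) hle (Real.arccos_le_pi _) (Sect_X h (by omega))
      (h.L0 j (by omega)) (ih (by omega) (hle.trans hjs)) fun θ hθ hθ' => ?_).trans ?_
    · have p0 : 0 < θ := (Real.arccos_nonneg _).trans_lt hθ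
      refine h1 θ p0 (hθ'.trans_le hjs) j (by omega) ?_ ?_
      · rw [← e2]
        exact Real.cos_le_cos_of_nonneg_of_le_pi p0.le (Real.arccos_le_pi _) hθ'.le
      · rw [← e1]
        exact Real.cos_le_cos_of_nonneg_of_le_pi (Real.arccos_nonneg _)
          (hθ'.le.trans (Real.arccos_le_pi _)) hθ.le
    · rw [e1, e2]
      exact ENNReal.ofReal_le_ofReal (h.X1 j (by omega))

/-- PROOF. Put `M s = 12 * ∫⁻ θ in Ioo 0 s, ofReal (sin θ) * l θ`. (1) If `j < N`,
`t.c (j + 1) ≤ cos s ≤ t.c j` then `M s ≤ ofReal (t.X j + t.L j * (t.c j - cos s))`; and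
`M s ≤ ofReal (t.X N + K * (t.c N - cos s))` if `cos s ≤ t.c N`. Induction on `j`: with
`a j = Real.arccos (t.c j)` (`a 0 = 0`, `a` is monotone) `Ioo 0 (a (j + 1))` is, up to one point,
the union of `Ioo 0 (a j)` and `Ioo (a j) (a (j + 1))`, and on the second interval
`12 * l θ ≤ ofReal (t.L j)`, `∫⁻ θ in Ioo a b, ofReal (sin θ) = ofReal (cos a - cos b)` for
`0 ≤ a ≤ b ≤ π`. (2) `∫⁻ θ in Ioo 0 π, ofReal (sin θ) * C θ` is at most
`ofReal ((1 - cos s) * F) + ofReal ((1 + cos s) * t.g j)` if `t.c (j + 1) ≤ cos s ≤ t.c j` (split at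
`s`), and always at most `ofReal (2 * F)`. (3) If `cos s ≤ t.c N` use `full`. Otherwise there is
`j < N` with `t.c (j + 1) ≤ cos s ≤ t.c j`, and
`t.X j + t.L j * (t.c j - u) + (1 - u) / 2 * F + (1 + u) / 2 * t.g j ≤ K * (1 - u)` holds for
`u = t.c j` (`left`) and `u = t.c (j + 1)` (`right`, `X1`), hence for `u = cos s` in between (both
sides are affine functions of `u`). -/
theorem sector {t : Tab} {K F : ℝ} (h : t.Ok K F) {s : ℝ} (hs0 : 0 ≤ s) (hs : s ≤ Real.pi)
    {l C : ℝ → ℝ≥0∞} (hl : Measurable l) (hC : Measurable C)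
    (h1 : ∀ θ, 0 < θ → θ < s → ∀ j < t.N, t.c (j + 1) ≤ Real.cos θ → Real.cos θ ≤ t.c j →
      12 * l θ ≤ ENNReal.ofReal (t.L j))
    (h2 : ∀ θ, 0 < θ → θ < s → Real.cos θ ≤ t.c t.N → 12 * l θ ≤ ENNReal.ofReal K)
    (h3 : ∀ θ, 0 < θ → θ < Real.pi → C θ ≤ ENNReal.ofReal F)
    (h4 : ∀ j < t.N, t.c (j + 1) ≤ Real.cos s → Real.cos s ≤ t.c j →
      ∀ θ, s < θ → θ < Real.pi → C θ ≤ ENNReal.ofReal (t.g j)) :
    12 * (∫⁻ θ in Set.Ioo 0 s, ENNReal.ofReal (Real.sin θ) * l θ) +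
      (∫⁻ θ in Set.Ioo 0 Real.pi, ENNReal.ofReal (Real.sin θ) * C θ) / 2 ≤
      ENNReal.ofReal (K * (1 - Real.cos s)) := by
  have hX := fun j hj => Sect_X h (j := j) hj
  have hcos1 : Real.cos s ≤ 1 := Real.cos_le_one s
  have hcos2 : -1 ≤ Real.cos s := Real.neg_one_le_cos s
  have es : Real.arccos (Real.cos s) = s := Real.arccos_cos hs0 hs
  have half : ∀ {I : ℝ≥0∞} {y : ℝ}, 0 ≤ y → I ≤ ENNReal.ofReal (2 * y) →
      I / 2 ≤ ENNReal.ofReal y := fun {I y} hy hI => by
    rw [ENNReal.ofReal_mul (by norm_num), ENNReal.ofReal_ofNat] at hI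
    exact ENNReal.div_le_of_le_mul (by rwa [mul_comm])
  have hF0 := h.F0
  rcases le_or_gt (Real.cos s) (t.c t.N) with hc | hc
  · have hcN := Sect_c h (j := t.N) le_rfl
    have e1 : Real.cos (Real.arccos (t.c t.N)) = t.c t.N := Real.cos_arccos (by linarith) hcN.2
    have hle : Real.arccos (t.c t.N) ≤ s := by
      rw [← es]
      exact Real.arccos_le_arccos hc
    have hM := Sect_step (Real.arccos_nonneg _) hle hs (hX t.N le_rfl) h.K0
      (Sect_M h h1 le_rfl hle) fun θ hθ hθ' => by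
        have p0 : 0 < θ := (Real.arccos_nonneg _).trans_lt hθ
        refine h2 θ p0 hθ' ?_
        rw [← e1]
        exact Real.cos_le_cos_of_nonneg_of_le_pi (Real.arccos_nonneg _) (hθ'.le.trans hs) hθ.le
    rw [e1] at hM
    have hC2 : ∫⁻ θ in Set.Ioo 0 Real.pi, ENNReal.ofReal (Real.sin θ) * C θ ≤
        ENNReal.ofReal (2 * F) := by
      refine (Sect_le le_rfl Real.pi_pos.le le_rfl h3).trans (le_of_eq ?_)
      rw [Real.cos_zero, Real.cos_pi]
      norm_num
    refine (add_le_add hM (half hF0 hC2)).trans ?_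
    have hn : 0 ≤ K * (t.c t.N - Real.cos s) := mul_nonneg h.K0 (by linarith)
    rw [← ENNReal.ofReal_add (add_nonneg (hX t.N le_rfl) hn) hF0]
    refine ENNReal.ofReal_le_ofReal ?_
    have := h.full
    nlinarith
  · obtain ⟨j, hj, hj1, hj2⟩ : ∃ j < t.N, t.c (j + 1) ≤ Real.cos s ∧ Real.cos s ≤ t.c j := by
      classical
      have hex : ∃ m, t.c m < Real.cos s := ⟨t.N, hc⟩
      have hm := Nat.find_spec hex
      have hmN : Nat.find hex ≤ t.N := Nat.find_min' hex hc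
      rcases Nat.eq_zero_or_pos (Nat.find hex) with h0 | h0
      · rw [h0, h.c0] at hm
        linarith
      · refine ⟨Nat.find hex - 1, by omega, ?_, ?_⟩
        · rw [show Nat.find hex - 1 + 1 = Nat.find hex by omega]
          exact hm.le
        · exact not_lt.1 (Nat.find_min hex (by omega))
    have cj := Sect_c h (j := j) hj.le
    have e1 : Real.cos (Real.arccos (t.c j)) = t.c j := Real.cos_arccos (by linarith) cj.2
    have hle : Real.arccos (t.c j) ≤ s := by
      rw [← es]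
      exact Real.arccos_le_arccos hj2
    have hM := Sect_step (Real.arccos_nonneg _) hle hs (hX j hj.le) (h.L0 j hj)
      (Sect_M h h1 hj.le hle) fun θ hθ hθ' => by
        have p0 : 0 < θ := (Real.arccos_nonneg _).trans_lt hθ
        refine h1 θ p0 hθ' j hj ?_ ?_
        · exact hj1.trans (Real.cos_le_cos_of_nonneg_of_le_pi p0.le hs hθ'.le)
        · rw [← e1]
          exact Real.cos_le_cos_of_nonneg_of_le_pi (Real.arccos_nonneg _) (hθ'.le.trans hs) hθ.le
    rw [e1] at hM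
    have hg := h.g0 j hj
    have n1 : 0 ≤ (1 - Real.cos s) * F := mul_nonneg (by linarith) hF0
    have n2 : 0 ≤ (Real.cos s + 1) * t.g j := mul_nonneg (by linarith) hg
    have hC2 : ∫⁻ θ in Set.Ioo 0 Real.pi, ENNReal.ofReal (Real.sin θ) * C θ ≤
        ENNReal.ofReal (2 * ((1 - Real.cos s) / 2 * F + (1 + Real.cos s) / 2 * t.g j)) := by
      refine (Sect_split 0 s Real.pi _).trans ((add_le_add
        (Sect_le le_rfl hs0 hs fun θ p q => h3 θ p (q.trans_le hs))
        (Sect_le hs0 hs le_rfl fun θ p q => h4 j hj hj1 hj2 θ p q)).trans (le_of_eq ?_))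
      rw [Real.cos_zero, Real.cos_pi, ← ENNReal.ofReal_add n1 (by linarith)]
      congr 1
      ring
    have n3 : 0 ≤ (1 - Real.cos s) / 2 * F + (1 + Real.cos s) / 2 * t.g j := by linarith
    refine (add_le_add hM (half n3 hC2)).trans ?_
    have hn : 0 ≤ t.L j * (t.c j - Real.cos s) := mul_nonneg (h.L0 j hj) (by linarith)
    rw [← ENNReal.ofReal_add (add_nonneg (hX j hj.le) hn) n3]
    refine ENNReal.ofReal_le_ofReal ?_
    have hl' := h.left j hj
    have hr' := h.right j hj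
    have hx' := h.X1 j hj
    rcases eq_or_lt_of_le (h.anti j hj) with he | hlt
    · have hu : Real.cos s = t.c j := le_antisymm hj2 (he ▸ hj1)
      rw [hu]
      linarith
    · have a1 := mul_nonneg (sub_nonneg.2 hl') (sub_nonneg.2 hj1)
      have a2 := mul_nonneg (sub_nonneg.2 (hx'.trans
        (by linarith : t.X (j + 1) ≤ K * (1 - t.c (j + 1)) -
          ((1 - t.c (j + 1)) / 2 * F + (1 + t.c (j + 1)) / 2 * t.g j)))) (sub_nonneg.2 hj2)
      refine sub_nonneg.1 (nonneg_of_mul_nonneg_left (b := t.c j - t.c (j + 1)) ?_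
        (sub_pos.2 hlt))
      nlinarith

end Pool.Agent.helper53.Bru
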