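import Pool.Agent.helper53.Bru.Exit
import Pool.Agent.helper53.Bru.Sect
import Pool.Agent.helper53.Bru.Radial
import Pool.Agent.helper53.Bru.Table

/-!
# The sector inequality for one point
-/

set_option autoImplicit false

namespace Pool.Agent.helper53.Bru

open SimpleGraph MeasureTheory Pool.Agent.helper79.Mst Pool.Agent.helper62.Brd
open scoped ENNReal

variable {V : Type} [Fintype V]

/-- The part of the third power which belongs to long distances. -/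
noncomputable def phi (t : ℝ) : ℝ := max 0 (t ^ 3 - (67 / 125) ^ 3)

theorem phi_nonneg (t : ℝ) : 0 ≤ phi t := le_max_left _ _

theorem phi_mono {s t : ℝ} (hs : 0 ≤ s) (h : s ≤ t) : phi s ≤ phi t := by
  unfold phi
  refine max_le_max le_rfl ?_
  have := pow_le_pow_left₀ hs h 3
  linarith

theorem phi_zero : phi 0 = 0 := by
  unfold phi
  norm_num

/-- The numbers of a table as real numbers. -/
noncomputable def toTab (F : ℚ) (l : List (ℕ × ℕ × ℕ × ℕ × ℕ × ℕ)) (N : ℕ) : Tab where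
  N := N
  c j := ((getRow l j).c : ℝ)
  L j := ((LQ (getRow l j) : ℚ) : ℝ)
  g j := ((gQ F (getRow l j) : ℚ) : ℝ)
  X j := ((getRow l j).X : ℝ)

theorem gQ_nonneg {F : ℚ} (hF : 0 ≤ F) (t : RowQ) : 0 ≤ gQ F t :=
  le_min hF (le_max_left _ _)

theorem toTab_ok {k F : ℚ} {l : List (ℕ × ℕ × ℕ × ℕ × ℕ × ℕ)} {N : ℕ} (h : GoodTab k F l N) :
    (toTab F l N).Ok (33 / 4) F := by
  obtain ⟨hF, hc0, hX0, hcN, hfull, hrow⟩ := h
  have h34 : ((33 / 4 : ℚ) : ℝ) = 33 / 4 := by norm_num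
  refine ⟨?_, ?_, ?_, ?_, ?_, ?_, by norm_num, ?_, ?_, ?_, ?_, ?_⟩
  · change (((getRow l 0).c : ℚ) : ℝ) = 1
    rw [hc0]
    norm_num
  · change (0 : ℝ) ≤ (((getRow l N).c : ℚ) : ℝ)
    have : (0 : ℚ) ≤ (getRow l N).c := by linarith
    exact_mod_cast this
  · intro j hj
    have := (hrow j hj).2.1
    change (((getRow l (j + 1)).c : ℚ) : ℝ) ≤ (((getRow l j).c : ℚ) : ℝ)
    exact_mod_cast this
  · intro j hj
    obtain ⟨-, -, -, hT, -, ha, hab, hb, -⟩ := hrow j hj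
    change (0 : ℝ) ≤ ((LQ (getRow l j) : ℚ) : ℝ)
    have h1 : (getRow l j).b ^ 3 ≤ (getRow l j).T ^ 3 :=
      pow_le_pow_left₀ (by linarith) hb 3
    have h2 : (67 / 250 : ℚ) ^ 3 ≤ (getRow l j).a ^ 3 := pow_le_pow_left₀ (by norm_num) ha 3
    have : (0 : ℚ) ≤ LQ (getRow l j) := by
      unfold LQ
      linarith
    exact_mod_cast this
  · intro j hj
    have := gQ_nonneg hF (getRow l j)
    change (0 : ℝ) ≤ ((gQ F (getRow l j) : ℚ) : ℝ)
    exact_mod_cast this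
  · exact_mod_cast hF
  · change (((getRow l 0).X : ℚ) : ℝ) = 0
    rw [hX0]
    norm_num
  · intro j hj
    have := (hrow j hj).2.2.2.2.2.2.2.2.2.2.1
    change (((getRow l j).X : ℚ) : ℝ) + ((LQ (getRow l j) : ℚ) : ℝ) *
      ((((getRow l j).c : ℚ) : ℝ) - (((getRow l (j + 1)).c : ℚ) : ℝ)) ≤
      (((getRow l (j + 1)).X : ℚ) : ℝ)
    exact_mod_cast this
  · intro j hj
    have := (hrow j hj).2.2.2.2.2.2.2.2.2.2.2.1
    change (((getRow l j).X : ℚ) : ℝ) + (1 - (((getRow l j).c : ℚ) : ℝ)) / 2 * (F : ℝ) +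
      (1 + (((getRow l j).c : ℚ) : ℝ)) / 2 * ((gQ F (getRow l j) : ℚ) : ℝ) ≤
      33 / 4 * (1 - (((getRow l j).c : ℚ) : ℝ))
    rw [← h34]
    exact_mod_cast this
  · intro j hj
    have := (hrow j hj).2.2.2.2.2.2.2.2.2.2.2.2
    change (((getRow l (j + 1)).X : ℚ) : ℝ) + (1 - (((getRow l (j + 1)).c : ℚ) : ℝ)) / 2 * (F : ℝ) +
      (1 + (((getRow l (j + 1)).c : ℚ) : ℝ)) / 2 * ((gQ F (getRow l j) : ℚ) : ℝ) ≤
      33 / 4 * (1 - (((getRow l (j + 1)).c : ℚ) : ℝ))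
    rw [← h34]
    exact_mod_cast this
  · change (((getRow l N).X : ℚ) : ℝ) + (F : ℝ) ≤ 33 / 4 * (1 - (((getRow l N).c : ℚ) : ℝ))
    rw [← h34]
    exact_mod_cast hfull

/-! ### Distances of points -/

theorem conv1 {r A m n M : ℝ} (h0 : r ≤ A) (h1 : A ≤ 1)
    (hr : r ^ 2 + m * r + n ≤ M) (h : 1 + m + n ≤ M) : A ^ 2 + m * A + n ≤ M := by
  rcases h0.eq_or_lt with h2 | h2
  · rw [← h2]
    exact hr
  have hr1 : r < 1 := h2.trans_le h1
  have h3 : 0 ≤ (1 - A) * (A - r) := mul_nonneg (by linarith) (by linarith)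
  have h4 : (1 - r) * (A ^ 2 + m * A + n) ≤ (1 - r) * M := by
    have h5 : 0 ≤ (1 - A) * (M - (r ^ 2 + m * r + n)) := mul_nonneg (by linarith) (by linarith)
    have h6 : 0 ≤ (A - r) * (M - (1 + m + n)) := mul_nonneg (by linarith) (by linarith)
    have h7 : 0 ≤ (1 - r) * ((1 - A) * (A - r)) := mul_nonneg (by linarith) h3
    nlinarith
  exact le_of_mul_le_mul_left h4 (by linarith)

theorem conv2 {r A B Y M : ℝ} (hr : 0 ≤ r) (hY : 0 ≤ Y) (hA0 : r ≤ A) (hA1 : A ≤ 1) (hB0 : r ≤ B)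
    (hB1 : B ≤ 1) (h1 : Y ≤ M) (h2 : (1 - r) ^ 2 + r * Y ≤ M) :
    (A - B) ^ 2 + A * B * Y ≤ M := by
  have hr1 : r ≤ 1 := hA0.trans hA1
  have key : ∀ C : ℝ, r ≤ C → C ≤ 1 → ((r - C) ^ 2 + r * C * Y ≤ M ∧ (1 - C) ^ 2 + C * Y ≤ M) := by
    intro C hC0 hC1
    constructor
    · have := conv1 (r := r) (A := C) (m := r * Y - 2 * r) (n := r ^ 2) (M := M) hC0 hC1 (by
        have : r ^ 2 * Y ≤ 1 * Y := mul_le_mul_of_nonneg_right (by nlinarith) hY
        nlinarith) (by nlinarith)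
      nlinarith
    · have := conv1 (r := r) (A := C) (m := Y - 2) (n := 1) (M := M) hC0 hC1 (by nlinarith)
        (by nlinarith)
      nlinarith
  obtain ⟨k1, k2⟩ := key B hB0 hB1
  have := conv1 (r := r) (A := A) (m := B * Y - 2 * B) (n := B ^ 2) (M := M) hA0 hA1
    (by nlinarith) (by nlinarith)
  nlinarith

theorem dist_sq_dir {a b : E3} (ha : a ≠ 0) (hb : b ≠ 0) :
    dist a b ^ 2 = (‖a‖ - ‖b‖) ^ 2 + ‖a‖ * ‖b‖ * dist (dir a) (dir b) ^ 2 := by
  have ha' : ‖a‖ ≠ 0 := norm_ne_zero_iff.2 ha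
  have hb' : ‖b‖ ≠ 0 := norm_ne_zero_iff.2 hb
  rw [dist_eq_norm, dist_eq_norm, norm_sub_sq_real, norm_sub_sq_real]
  unfold dir
  rw [norm_smul, norm_smul, norm_inv, norm_inv, norm_norm, norm_norm, inv_mul_cancel₀ ha',
    inv_mul_cancel₀ hb', real_inner_smul_left, real_inner_smul_right]
  field_simp
  ring

theorem norm_dir {a : E3} (ha : a ≠ 0) : ‖dir a‖ = 1 := by
  unfold dir
  rw [norm_smul, norm_inv, norm_norm, inv_mul_cancel₀ (norm_ne_zero_iff.2 ha)]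

theorem norm_gam {u e : E3} (hu : ‖u‖ = 1) (he : ‖e‖ = 1) (h : inner ℝ u e = 0) (θ : ℝ) :
    ‖gam u e θ‖ = 1 := by
  have h1 : ‖gam u e θ‖ ^ 2 = 1 := by
    unfold gam
    rw [norm_add_sq_real, norm_smul, norm_smul, hu, he, real_inner_smul_left, real_inner_smul_right,
      h, Real.norm_eq_abs, Real.norm_eq_abs, mul_one, mul_one, sq_abs, sq_abs]
    have := Real.sin_sq_add_cos_sq θ
    linarith
  have h2 : (0 : ℝ) ≤ ‖gam u e θ‖ := norm_nonneg _
  nlinarith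

theorem inner_gam {u e : E3} (hu : ‖u‖ = 1) (h : inner ℝ u e = 0) (θ : ℝ) :
    inner ℝ u (gam u e θ) = Real.cos θ := by
  unfold gam
  rw [inner_add_right, real_inner_smul_right, real_inner_smul_right, h, real_inner_self_eq_norm_sq,
    hu]
  ring

/-- PROOF of the bound of the distance of two points from the bound of the distance of their
directions. -/
theorem dist_le_of_row {x : V → E3} {o p q : V} (hx : InBall x o) {k Y R : ℚ}
    (h : DistQ k Y R) (hk : (k : ℝ) ≤ kap x o p) (hp : 67 / 125 ≤ ‖x p‖) (hq : 67 / 125 ≤ ‖x q‖)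
    (hY : dist (dir (x p)) (dir (x q)) ^ 2 ≤ Y) : dist (x p) (x q) ≤ R := by
  obtain ⟨hR, hY1, hYR, h⟩ := h
  have hp0 : x p ≠ 0 := by
    intro h0
    rw [h0, norm_zero] at hp
    norm_num at hp
  have hq0 : x q ≠ 0 := by
    intro h0
    rw [h0, norm_zero] at hq
    norm_num at hq
  have hR' : (0 : ℝ) ≤ R := by exact_mod_cast hR
  have hYR' : (Y : ℝ) ≤ (R : ℝ) ^ 2 := by exact_mod_cast hYR
  have hY0 : (0 : ℝ) ≤ Y := (sq_nonneg _).trans hY
  have hd := dist_sq_dir hp0 hq0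
  have hab : 0 ≤ ‖x p‖ * ‖x q‖ := by positivity
  have hd2 : dist (x p) (x q) ^ 2 ≤ (‖x p‖ - ‖x q‖) ^ 2 + ‖x p‖ * ‖x q‖ * Y := by
    rw [hd]
    have := mul_le_mul_of_nonneg_left hY hab
    linarith
  have e1 : ((67 / 125 : ℚ) : ℝ) = 67 / 125 := by norm_num
  rcases h with h | ⟨hk0, hk1, hYk, hk2, hk3⟩
  · have h' : (1 - 67 / 125 : ℝ) ^ 2 + 67 / 125 * (Y : ℝ) ≤ (R : ℝ) ^ 2 := by
      rw [← e1]
      exact_mod_cast h
    have := conv2 (r := 67 / 125) (by norm_num) hY0 hp (hx.ball p) hq (hx.ball q) hYR' h'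
    exact le_of_sq_le_sq (hd2.trans this) hR'
  · have hk2' : (1 - 67 / 125 : ℝ) ^ 2 + 67 / 125 * (Y : ℝ) < (k : ℝ) ^ 2 := by
      rw [← e1]
      exact_mod_cast hk2
    have hYk' : (Y : ℝ) < (k : ℝ) ^ 2 := by exact_mod_cast hYk
    have hk0' : (67 / 125 : ℝ) ≤ k := by
      rw [← e1]
      exact_mod_cast hk0
    have hk3' : (1 - (k : ℝ)) ^ 2 + k * Y ≤ (R : ℝ) ^ 2 := by exact_mod_cast hk3
    have h1 := conv2 (r := 67 / 125) (M := max (Y : ℝ) ((1 - 67 / 125 : ℝ) ^ 2 + 67 / 125 * (Y : ℝ)))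
      (by norm_num) hY0 hp (hx.ball p) hq (hx.ball q) (le_max_left _ _) (le_max_right _ _)
    have h2 : dist (x p) (x q) ^ 2 < (k : ℝ) ^ 2 := (hd2.trans h1).trans_lt (max_lt hYk' hk2')
    have h3 : dist (x p) (x q) < k := lt_of_pow_lt_pow_left₀ 2 (by linarith) h2
    have h4 : kap x o p ≤ dist (x q) (x o) := by
      by_contra hcon
      have := kap_far x (not_le.1 hcon)
      linarith
    rw [hx.center, dist_zero_right] at h4
    have h5 : kap x o p ≤ ‖x p‖ := by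
      have := kap_le_dist x o p
      rwa [hx.center, dist_zero_right] at this
    have := conv2 (r := (k : ℝ)) (by linarith) hY0 (hk.trans h5) (hx.ball p) (hk.trans h4)
      (hx.ball q) hYR' hk3'
    exact le_of_sq_le_sq (hd2.trans this) hR'

end Pool.Agent.helper53.Bru
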