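import Pool.Agent.helper53.Bru.Fin1

/-!
# The sector inequality for one point and one half plane
-/

set_option autoImplicit false

namespace Pool.Agent.helper53.Bru

open SimpleGraph MeasureTheory Pool.Agent.helper79.Mst Pool.Agent.helper62.Brd
open scoped ENNReal

variable {V : Type} [Fintype V]

/-- The cone of the `y` whose direction is closest to the direction of `x p`. -/
def Cell (x : V → E3) (i : V → ℕ) (p : V) : Set E3 :=
  {y : E3 | ∀ q, 67 / 125 ≤ ‖x q‖ → ¬ Beats x i y q p}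

theorem ne_zero_of_le {v : E3} (h : 67 / 125 ≤ ‖v‖) : v ≠ 0 := by
  intro h0
  rw [h0, norm_zero] at h
  norm_num at h

theorem kap_le_norm {x : V → E3} {o : V} (hx : InBall x o) (p : V) : kap x o p ≤ ‖x p‖ := by
  have := kap_le_dist x o p
  rwa [hx.center, dist_zero_right] at this

theorem measurable_cost_gam (x : V → E3) (i : V → ℕ) (o p : V) (u e : E3) :
    Measurable fun θ => ENNReal.ofReal (phi (cost x i o (gam u e θ) p)) := by
  have h1 : Measurable fun θ : ℝ => gam u e θ := by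
    have : Continuous fun θ : ℝ => gam u e θ := by
      unfold gam
      fun_prop
    exact this.measurable
  have h2 : Measurable phi := by
    have : Continuous phi := by
      unfold phi
      fun_prop
    exact this.measurable
  exact (h2.comp ((measurable_cost x i o p).comp h1)).ennreal_ofReal

/-- the radial bound of a row -/
theorem rad_row {x : V → E3} {o p : V} (hx : InBall x o) {i : V → ℕ} {k F : ℚ} {t s : RowQ}
    (h : Good k F t s) (hk : (k : ℝ) ≤ kap x o p) {γ : E3} (hγ : ‖γ‖ = 1) (hcell : γ ∈ Cell x i p)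
    (hc1 : (s.c : ℝ) ≤ inner ℝ (dir (x p)) γ) (hc0 : inner ℝ (dir (x p)) γ ≤ t.c) :
    12 * rad x (67 / 250) γ ≤ ENNReal.ofReal ((LQ t : ℚ) : ℝ) := by
  obtain ⟨g1, g2, g3, g4, g5, g6, g7, g8, g9, -⟩ := h
  have e1 : ((67 / 125 : ℚ) : ℝ) = 67 / 125 := by norm_num
  have e2 : ((67 / 250 : ℚ) : ℝ) = 67 / 250 := by norm_num
  have hc0' : (0 : ℝ) ≤ t.c := by
    have : (0 : ℚ) ≤ t.c := by linarith
    exact_mod_cast this
  have hc1' : (t.c : ℝ) ≤ 1 := by exact_mod_cast g3
  have hT0 : (67 / 125 : ℝ) + 67 / 250 ≤ t.T := by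
    rw [← e1, ← e2]
    exact_mod_cast g4
  have hT : (1 ≤ (t.T : ℝ) * t.c ∧ (67 / 250 : ℝ) ^ 2 ≤ (t.T : ℝ) ^ 2 - 2 * t.T * t.c + 1) ∨
      (67 / 250 : ℝ) ^ 2 ≤ (t.T : ℝ) ^ 2 * (1 - (t.c : ℝ) ^ 2) := by
    rw [← e2]
    rcases g5 with ⟨h1, h2⟩ | h1
    · exact Or.inl ⟨by exact_mod_cast h1, by exact_mod_cast h2⟩
    · exact Or.inr (by exact_mod_cast h1)
  have ha : (67 / 250 : ℝ) ≤ t.a := by
    rw [← e2]
    exact_mod_cast g6
  have hab : (t.a : ℝ) ≤ t.b := by exact_mod_cast g7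
  have hb : (t.b : ℝ) ≤ t.T := by exact_mod_cast g8
  have hL : ((LQ t : ℚ) : ℝ) =
      4 * ((t.T : ℝ) ^ 3 - (67 / 250) ^ 3 - ((t.b : ℝ) ^ 3 - (t.a : ℝ) ^ 3)) := by
    unfold LQ
    push_cast
    ring
  rw [hL]
  refine rad_le hγ (by norm_num) ha hab hb ?_ ?_
  · intro τ hτ b hd
    exact outer hx.ball (r := 67 / 125) (by norm_num) (by norm_num) hc0' hc1' hT0 hT hγ hcell hc0
      hτ hd
  · intro τ h1 h2 b
    rcases g9 with g9 | ⟨k0, k1, k2, k3, k4, k5, k6⟩
    · exfalso
      have : (t.a : ℝ) = t.b := by exact_mod_cast g9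
      linarith
    · have hk0 : (67 / 125 : ℝ) ≤ k := by
        rw [← e1]
        exact_mod_cast k0
      refine hole hx.ball hx.center (r := 67 / 125) (k := k) (c₀ := t.c) (c₁ := s.c) (α := t.a)
        (β := t.b) (by norm_num) (by norm_num) hk0 (by linarith) hk hc0' hc1' (by linarith)
        ?_ ?_ ?_ ?_ ?_ ?_ hγ hcell hc0 hc1 h1 h2 b
      · rw [← e2]
        exact_mod_cast k1
      · rw [← e2]
        exact_mod_cast k2
      · rw [← e2]
        exact_mod_cast k3
      · rw [← e2]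
        exact_mod_cast k4
      · exact_mod_cast k5
      · rw [← e2]
        rcases k6 with ⟨k6, k7⟩ | k6
        · exact Or.inl ⟨by exact_mod_cast k6, by exact_mod_cast k7⟩
        · exact Or.inr (by exact_mod_cast k6)

/-- the radial bound without information -/
theorem rad_all {x : V → E3} {o p : V} (hx : InBall x o) {i : V → ℕ} {γ : E3} (hγ : ‖γ‖ = 1)
    (hcell : γ ∈ Cell x i p) (hc : inner ℝ (dir (x p)) γ ≤ 1) :
    12 * rad x (67 / 250) γ ≤ ENNReal.ofReal (33 / 4) := by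
  have h := rad_le (x := x) (ρ := 67 / 250) (α := 67 / 250) (β := 67 / 250) (T := 317 / 250) hγ
    (by norm_num) le_rfl le_rfl (by norm_num) (fun τ hτ b hd => outer hx.ball (r := 67 / 125)
      (c := 1) (by norm_num) (by norm_num) (by norm_num) le_rfl (by norm_num)
      (Or.inl ⟨by norm_num, by norm_num⟩) hγ hcell hc hτ hd) (fun τ h1 h2 _ => by
        exfalso
        linarith)
  refine h.trans (ENNReal.ofReal_le_ofReal ?_)
  norm_num

theorem point_sector_aux {x : V → E3} {o p : V} (hx : InBall x o) (i : V → ℕ)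
    (hp : 67 / 125 ≤ ‖x p‖) {e : E3} (he : ‖e‖ = 1) (hpe : inner ℝ (dir (x p)) e = 0)
    {k F : ℚ} {l : List (ℕ × ℕ × ℕ × ℕ × ℕ × ℕ)} {N : ℕ} (h : GoodTab k F l N)
    (hk : (k : ℝ) ≤ kap x o p) (hF : ∀ z, phi (cost x i o z p) ≤ F) :
    ∃ s : ℝ, 0 ≤ s ∧ s ≤ Real.pi ∧
      (∀ θ, 0 < θ → θ < s → gam (dir (x p)) e θ ∈ Cell x i p) ∧
      (∀ θ, s < θ → θ < Real.pi → gam (dir (x p)) e θ ∉ Cell x i p) ∧
      12 * (∫⁻ θ in Set.Ioo 0 s, ENNReal.ofReal (Real.sin θ) *
        rad x (67 / 250) (gam (dir (x p)) e θ)) +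
      (∫⁻ θ in Set.Ioo 0 Real.pi, ENNReal.ofReal (Real.sin θ) *
        ENNReal.ofReal (phi (cost x i o (gam (dir (x p)) e θ) p))) / 2 ≤
      ENNReal.ofReal (33 / 4 * (1 - Real.cos s)) := by
  have hp0 : x p ≠ 0 := ne_zero_of_le hp
  have hu : ‖dir (x p)‖ = 1 := norm_dir hp0
  obtain ⟨s, hs0, hs, hin, hout⟩ := exit (x := x) (i := i) {q | 67 / 125 ≤ ‖x q‖} hp0
    (fun q hq => ne_zero_of_le hq) he hpe
  have hcell : ∀ θ, 0 < θ → θ < s → gam (dir (x p)) e θ ∈ Cell x i p := fun θ h1 h2 q hq =>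
    hin θ h1 h2 q hq
  refine ⟨s, hs0, hs, hcell, ?_, ?_⟩
  · intro θ h1 h2 h3
    obtain ⟨q, hq, hb, -⟩ := hout (h1.trans h2)
    exact h3 q hq (hb θ h1 h2)
  · refine sector (toTab_ok h) hs0 hs (measurable_rad x _ _ _) (measurable_cost_gam x i o p _ _)
      ?_ ?_ ?_ ?_
    · intro θ h1 h2 j hj h3 h4
      have hin := inner_gam hu hpe θ
      exact rad_row hx (h.2.2.2.2.2 j hj) hk (norm_gam hu he hpe θ) (hcell θ h1 h2)
        (by rw [hin]; exact h3) (by rw [hin]; exact h4)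
    · intro θ h1 h2 _
      have hin := inner_gam hu hpe θ
      exact rad_all hx (norm_gam hu he hpe θ) (hcell θ h1 h2) (by rw [hin]; exact Real.cos_le_one θ)
    · intro θ _ _
      exact ENNReal.ofReal_le_ofReal (hF _)
    · intro j hj h3 h4 θ h1 h2
      refine ENNReal.ofReal_le_ofReal ?_
      change phi (cost x i o (gam (dir (x p)) e θ) p) ≤ ((gQ F (getRow l j) : ℚ) : ℝ)
      have hrow := h.2.2.2.2.2 j hj
      obtain ⟨g1, -, -, -, -, -, -, -, -, g10, -⟩ := hrow
      change (((getRow l (j + 1)).c : ℚ) : ℝ) ≤ Real.cos s at h3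
      have hc : (1 / 2 : ℝ) ≤ (((getRow l (j + 1)).c : ℚ) : ℝ) := by
        have e0 : ((1 / 2 : ℚ) : ℝ) = 1 / 2 := by norm_num
        rw [← e0]
        exact_mod_cast g1
      rcases g10 with g10 | g10
      · have : (F : ℝ) ≤ ((gQ F (getRow l j) : ℚ) : ℝ) := by exact_mod_cast g10
        exact (hF _).trans this
      · have hs2 : s < Real.pi / 2 := by
          by_contra hcon
          have := Real.cos_nonpos_of_pi_div_two_le_of_le (not_lt.1 hcon) (by linarith [Real.pi_pos])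
          linarith
        have hspi : s < Real.pi := by linarith [Real.pi_pos]
        obtain ⟨q, hq, hb, hd⟩ := hout hspi
        have hd' := hd hs2
        have hY : dist (dir (x p)) (dir (x q)) ^ 2 ≤
            ((4 * (1 - (getRow l (j + 1)).c ^ 2) : ℚ) : ℝ) := by
          have hsin : 0 ≤ Real.sin s := Real.sin_nonneg_of_nonneg_of_le_pi hs0 hs
          have h5 : dist (dir (x p)) (dir (x q)) ^ 2 ≤ (2 * Real.sin s) ^ 2 :=
            pow_le_pow_left₀ dist_nonneg hd' 2
          refine h5.trans ?_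
          push_cast
          have h6 := Real.sin_sq_add_cos_sq s
          have h7 : (((getRow l (j + 1)).c : ℚ) : ℝ) ^ 2 ≤ Real.cos s ^ 2 :=
            pow_le_pow_left₀ (by linarith) h3 2
          nlinarith
        have hdist := dist_le_of_row hx g10 hk hp hq hY
        have hcost : cost x i o (gam (dir (x p)) e θ) p ≤ ((getRow l j).R : ℝ) :=
          (cost_le_dist x i o (hb θ h1 h2)).trans hdist
        have h8 : phi (cost x i o (gam (dir (x p)) e θ) p) ≤ phi ((getRow l j).R : ℝ) :=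
          phi_mono (cost_nonneg _ _ _ _ _) hcost
        unfold gQ
        push_cast
        refine le_min (hF _) (h8.trans ?_)
        unfold phi
        exact le_rfl

theorem phi_cost_le {x : V → E3} {o : V} (i : V → ℕ) (p : V) {b : ℝ} (h : kap x o p ≤ b) (z : E3) :
    phi (cost x i o z p) ≤ phi b :=
  phi_mono (cost_nonneg _ _ _ _ _) ((cost_le_kap _ _ _ _ _).trans h)

theorem point_sector {x : V → E3} {o p : V} (hx : InBall x o) (i : V → ℕ)
    (hp : 67 / 125 ≤ ‖x p‖) {e : E3} (he : ‖e‖ = 1) (hpe : inner ℝ (dir (x p)) e = 0) :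
    ∃ s : ℝ, 0 ≤ s ∧ s ≤ Real.pi ∧
      (∀ θ, 0 < θ → θ < s → gam (dir (x p)) e θ ∈ Cell x i p) ∧
      (∀ θ, s < θ → θ < Real.pi → gam (dir (x p)) e θ ∉ Cell x i p) ∧
      12 * (∫⁻ θ in Set.Ioo 0 s, ENNReal.ofReal (Real.sin θ) *
        rad x (67 / 250) (gam (dir (x p)) e θ)) +
      (∫⁻ θ in Set.Ioo 0 Real.pi, ENNReal.ofReal (Real.sin θ) *
        ENNReal.ofReal (phi (cost x i o (gam (dir (x p)) e θ) p))) / 2 ≤
      ENNReal.ofReal (33 / 4 * (1 - Real.cos s)) := by
  have hk1 : kap x o p ≤ 1 := (kap_le_norm hx p).trans (hx.ball p)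
  have hk0 : (((0 : ℚ) : ℝ)) ≤ kap x o p := by
    rw [Rat.cast_zero]
    exact kap_nonneg x o p
  rcases le_or_gt (kap x o p) (640 / 1000) with h1 | h1
  · refine point_sector_aux hx i hp he hpe good1 hk0 fun z => (phi_cost_le i p h1 z).trans ?_
    unfold phi
    push_cast
    norm_num
  rcases le_or_gt (kap x o p) (782 / 1000) with h2 | h2
  · refine point_sector_aux hx i hp he hpe good2 (by push_cast; exact h1.le)
      fun z => (phi_cost_le i p h2 z).trans ?_
    unfold phi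
    push_cast
    norm_num
  rcases le_or_gt (kap x o p) (867 / 1000) with h3 | h3
  · refine point_sector_aux hx i hp he hpe good3 (by push_cast; exact h2.le)
      fun z => (phi_cost_le i p h3 z).trans ?_
    unfold phi
    push_cast
    norm_num
  · refine point_sector_aux hx i hp he hpe good4 (by push_cast; exact h3.le)
      fun z => (phi_cost_le i p hk1 z).trans ?_
    unfold phi
    push_cast
    norm_num

end Pool.Agent.helper53.Bru
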