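import Pool.Agent.helper53.Bru.Defs

/-!
# BRU-5: spherical coordinates about an arbitrary axis
-/

set_option autoImplicit false

namespace Pool.Agent.helper53.Bru

open MeasureTheory Pool.Agent.helper79.Mst
open scoped ENNReal

private theorem Sph_basis {u : E3} (hu : ‖u‖ = 1) :
    ∃ b : OrthonormalBasis (Fin 3) ℝ E3, b 0 = u := by
  have hcard : Module.finrank ℝ E3 = Fintype.card (Fin 3) := by simp
  have hv : Orthonormal ℝ (({0} : Set (Fin 3)).domRestrict (fun _ => u)) := by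
    constructor
    · intro i
      exact hu
    · intro i j hij
      exact absurd (Subsingleton.elim i j) hij
  obtain ⟨b, hb⟩ := hv.exists_orthonormalBasis_extension_of_card_eq hcard
  exact ⟨b, hb 0 rfl⟩

/-- Cartesian coordinates. -/
private theorem Sph_coord (b : OrthonormalBasis (Fin 3) ℝ E3) {F : E3 → ℝ≥0∞}
    (hF : Measurable F) :
    ∫⁻ y, F y = ∫⁻ h : ℝ, ∫⁻ v : ℝ × ℝ, F (h • b 0 + (v.1 • b 1 + v.2 • b 2)) := by
  have hg : Measurable fun c : Fin 3 → ℝ => F (∑ i, c i • b i) := by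
    refine hF.comp ?_
    exact (Continuous.measurable (by fun_prop))
  have h1 : ∫⁻ y, F y = ∫⁻ c : Fin 3 → ℝ, F (∑ i, c i • b i) := by
    have h0 : Measurable fun a : EuclideanSpace ℝ (Fin 3) => F (b.repr.symm a) :=
      hF.comp b.repr.symm.continuous.measurable
    rw [← b.measurePreserving_repr_symm.lintegral_comp hF,
      ← (PiLp.volume_preserving_toLp (Fin 3)).lintegral_comp h0]
    refine lintegral_congr fun c => ?_
    congr 1
    exact (b.sum_repr_symm _).symm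
  rw [h1, ← (volume_preserving_piFinSuccAbove (fun _ : Fin 3 => ℝ) 0).symm.lintegral_comp hg]
  have h2 : Measurable fun p : ℝ × (Fin 2 → ℝ) =>
      F (p.1 • b 0 + (p.2 0 • b 1 + p.2 1 • b 2)) := by
    refine hF.comp ?_
    exact (Continuous.measurable (by fun_prop))
  have h3 : ∀ p : ℝ × (Fin 2 → ℝ),
      F (∑ i, ((MeasurableEquiv.piFinSuccAbove (fun _ : Fin 3 => ℝ) 0).symm p) i • b i) =
        F (p.1 • b 0 + (p.2 0 • b 1 + p.2 1 • b 2)) := by
    intro p
    congr 1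
    rw [Fin.sum_univ_three, add_assoc]
    rfl
  rw [lintegral_congr h3, Measure.volume_eq_prod, lintegral_prod _ h2.aemeasurable]
  refine lintegral_congr fun x => ?_
  have h4 : Measurable fun w : Fin 2 → ℝ => F (x • b 0 + (w 0 • b 1 + w 1 • b 2)) := by
    refine hF.comp ?_
    exact (Continuous.measurable (by fun_prop))
  rw [← (volume_preserving_finTwoArrow ℝ).symm.lintegral_comp h4]
  rfl

/-- Plane polar coordinates as an iterated integral. -/
private theorem Sph_polar (f : ℝ × ℝ → ℝ≥0∞) (hf : Measurable f) :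
    ∫⁻ v : ℝ × ℝ, f v = ∫⁻ φ in Set.Ioo (-Real.pi) Real.pi, ∫⁻ r in Set.Ioi (0 : ℝ),
      ENNReal.ofReal r * f (r * Real.cos φ, r * Real.sin φ) := by
  rw [← lintegral_comp_polarCoord_symm f]
  have hm : Measurable fun p : ℝ × ℝ =>
      ENNReal.ofReal p.1 * f (p.1 * Real.cos p.2, p.1 * Real.sin p.2) := by
    refine (ENNReal.measurable_ofReal.comp measurable_fst).mul (hf.comp ?_)
    exact (Continuous.measurable (by fun_prop))
  have h1 : ∫⁻ p in polarCoord.target, ENNReal.ofReal p.1 • f (polarCoord.symm p) =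
      ∫⁻ p in Set.Ioi (0 : ℝ) ×ˢ Set.Ioo (-Real.pi) Real.pi,
        ENNReal.ofReal p.1 * f (p.1 * Real.cos p.2, p.1 * Real.sin p.2) := rfl
  rw [h1, Measure.volume_eq_prod, ← Measure.prod_restrict,
    lintegral_prod_symm _ hm.aemeasurable]

/-- Polar coordinates in a half plane. -/
private theorem Sph_half (g : ℝ × ℝ → ℝ≥0∞) (hg : Measurable g) :
    ∫⁻ h : ℝ, ∫⁻ r in Set.Ioi (0 : ℝ), ENNReal.ofReal r * g (h, r) =
      ∫⁻ θ in Set.Ioo 0 Real.pi, ∫⁻ τ in Set.Ioi (0 : ℝ),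
        ENNReal.ofReal (τ ^ 2 * Real.sin θ) * g (τ * Real.cos θ, τ * Real.sin θ) := by
  have hm : Measurable fun q : ℝ × ℝ => ENNReal.ofReal q.2 * g q :=
    (ENNReal.measurable_ofReal.comp measurable_snd).mul hg
  have h1 : ∫⁻ h : ℝ, ∫⁻ r in Set.Ioi (0 : ℝ), ENNReal.ofReal r * g (h, r) =
      ∫⁻ q : ℝ × ℝ, ENNReal.ofReal q.2 * g q := by
    rw [Measure.volume_eq_prod, lintegral_prod _ hm.aemeasurable]
    refine lintegral_congr fun h => ?_
    rw [← lintegral_indicator measurableSet_Ioi]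
    refine lintegral_congr fun r => ?_
    by_cases hr : r ∈ Set.Ioi (0 : ℝ)
    · rw [Set.indicator_of_mem hr]
    · rw [Set.indicator_of_notMem hr]
      have hr' : r ≤ 0 := not_lt.mp hr
      simp [ENNReal.ofReal_of_nonpos hr']
  rw [h1, Sph_polar _ hm, ← lintegral_indicator measurableSet_Ioo,
    ← lintegral_indicator measurableSet_Ioo]
  refine lintegral_congr fun θ => ?_
  by_cases hθ : θ ∈ Set.Ioo 0 Real.pi
  · have hθ2 : θ ∈ Set.Ioo (-Real.pi) Real.pi := ⟨by linarith [hθ.1, Real.pi_pos], hθ.2⟩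
    rw [Set.indicator_of_mem hθ, Set.indicator_of_mem hθ2]
    refine setLIntegral_congr_fun measurableSet_Ioi fun τ hτ => ?_
    have hτ0 : 0 ≤ τ := le_of_lt hτ
    show ENNReal.ofReal τ * (ENNReal.ofReal (τ * Real.sin θ) *
      g (τ * Real.cos θ, τ * Real.sin θ)) = _
    rw [← mul_assoc, ← ENNReal.ofReal_mul hτ0]
    congr 2
    ring
  · rw [Set.indicator_of_notMem hθ]
    by_cases hθ2 : θ ∈ Set.Ioo (-Real.pi) Real.pi
    · rw [Set.indicator_of_mem hθ2]
      have hθ0 : θ ≤ 0 := by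
        by_contra hc
        exact hθ ⟨not_le.mp hc, hθ2.2⟩
      have hs : Real.sin θ ≤ 0 := Real.sin_nonpos_of_nonpos_of_neg_pi_le hθ0 hθ2.1.le
      have hz : ∫⁻ r in Set.Ioi (0 : ℝ), ENNReal.ofReal r *
          (ENNReal.ofReal (r * Real.cos θ, r * Real.sin θ).2 *
            g (r * Real.cos θ, r * Real.sin θ)) = ∫⁻ r in Set.Ioi (0 : ℝ), 0 := by
        refine setLIntegral_congr_fun measurableSet_Ioi fun τ hτ => ?_
        have h0 : τ * Real.sin θ ≤ 0 := mul_nonpos_of_nonneg_of_nonpos (le_of_lt hτ) hs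
        show ENNReal.ofReal τ * (ENNReal.ofReal (τ * Real.sin θ) *
          g (τ * Real.cos θ, τ * Real.sin θ)) = 0
        rw [ENNReal.ofReal_of_nonpos h0, zero_mul, mul_zero]
      rw [hz, lintegral_zero]
    · rw [Set.indicator_of_notMem hθ2]

/-- Spherical coordinates. -/
private theorem Sph_formula (b : OrthonormalBasis (Fin 3) ℝ E3) {F : E3 → ℝ≥0∞}
    (hF : Measurable F) :
    ∫⁻ y, F y = ∫⁻ φ in Set.Ioo (-Real.pi) Real.pi, ∫⁻ θ in Set.Ioo 0 Real.pi,
      ∫⁻ τ in Set.Ioi (0 : ℝ), ENNReal.ofReal (τ ^ 2 * Real.sin θ) *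
        F (τ • gam (b 0) (Real.cos φ • b 1 + Real.sin φ • b 2) θ) := by
  rw [Sph_coord b hF]
  have h1 : ∀ x : ℝ, ∫⁻ v : ℝ × ℝ, F (x • b 0 + (v.1 • b 1 + v.2 • b 2)) =
      ∫⁻ φ in Set.Ioo (-Real.pi) Real.pi, ∫⁻ r in Set.Ioi (0 : ℝ), ENNReal.ofReal r *
        F (x • b 0 + r • (Real.cos φ • b 1 + Real.sin φ • b 2)) := by
    intro x
    have hm : Measurable fun v : ℝ × ℝ => F (x • b 0 + (v.1 • b 1 + v.2 • b 2)) := by
      refine hF.comp ?_
      exact (Continuous.measurable (by fun_prop))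
    rw [Sph_polar _ hm]
    refine lintegral_congr fun φ => lintegral_congr fun r => ?_
    rw [smul_add, smul_smul, smul_smul]
  rw [lintegral_congr h1, lintegral_lintegral_swap]
  · refine lintegral_congr fun φ => ?_
    have hm : Measurable fun q : ℝ × ℝ =>
        F (q.1 • b 0 + q.2 • (Real.cos φ • b 1 + Real.sin φ • b 2)) := by
      refine hF.comp ?_
      exact (Continuous.measurable (by fun_prop))
    rw [Sph_half _ hm]
    refine lintegral_congr fun θ => lintegral_congr fun τ => ?_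
    congr 2
    show (τ * Real.cos θ) • b 0 + (τ * Real.sin θ) • (Real.cos φ • b 1 + Real.sin φ • b 2) =
      τ • (Real.cos θ • b 0 + Real.sin θ • (Real.cos φ • b 1 + Real.sin φ • b 2))
    rw [smul_add τ, smul_smul τ, smul_smul τ]
  · have hm : Measurable fun p : (ℝ × ℝ) × ℝ => ENNReal.ofReal p.2 *
        F (p.1.1 • b 0 + p.2 • (Real.cos p.1.2 • b 1 + Real.sin p.1.2 • b 2)) := by
      refine (ENNReal.measurable_ofReal.comp measurable_snd).mul (hF.comp ?_)
      exact (Continuous.measurable (by fun_prop))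
    exact (Measurable.lintegral_prod_right' (ν := volume.restrict (Set.Ioi (0 : ℝ)))
      hm).aemeasurable

/-- PROOF. Let `u, e₁, e₂` be an orthonormal basis (`Orthonormal.exists_orthonormalBasis_extension_of_card_eq`
with `s = {0}`). Show for measurable `F`:
`∫⁻ y, F y = ∫⁻ φ in Ioo (-π) π, ∫⁻ θ in Ioo 0 π, ∫⁻ τ in Ioi 0, ofReal (τ ^ 2 * sin θ) *
F (τ • gam u (cos φ • e₁ + sin φ • e₂) θ)`:
`OrthonormalBasis.measurePreserving_repr_symm`, `PiLp.volume_preserving_toLp`,
`volume_preserving_piFinSuccAbove`, `volume_preserving_finTwoArrow` turn the left hand side into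
`∫⁻ h, ∫⁻ v : ℝ × ℝ, F (h • u + v.1 • e₁ + v.2 • e₂)`; `lintegral_comp_polarCoord_symm` for `v`
(`polarCoord.target = Ioi 0 ×ˢ Ioo (-π) π`), `lintegral_lintegral_swap`, and for each `φ` again
`lintegral_comp_polarCoord_symm` for `(h, r)`, where the part `r > 0` of the plane corresponds to
the angles `θ ∈ (0, π)`. Then the claim follows by monotonicity in `φ`. -/
theorem lintegral_mono_sph {u : E3} (hu : ‖u‖ = 1) {G H : E3 → ℝ≥0∞} (hG : Measurable G)
    (hH : Measurable H)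
    (h : ∀ e : E3, ‖e‖ = 1 → inner ℝ u e = 0 →
      ∫⁻ θ in Set.Ioo 0 Real.pi, ∫⁻ τ in Set.Ioi (0 : ℝ),
          ENNReal.ofReal (τ ^ 2 * Real.sin θ) * G (τ • gam u e θ) ≤
        ∫⁻ θ in Set.Ioo 0 Real.pi, ∫⁻ τ in Set.Ioi (0 : ℝ),
          ENNReal.ofReal (τ ^ 2 * Real.sin θ) * H (τ • gam u e θ)) :
    ∫⁻ y, G y ≤ ∫⁻ y, H y := by
  obtain ⟨b, rfl⟩ := Sph_basis hu
  rw [Sph_formula b hG, Sph_formula b hH]
  refine lintegral_mono fun φ => h _ ?_ ?_
  · have h11 : inner ℝ (b 1) (b 1) = (1 : ℝ) := by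
      rw [real_inner_self_eq_norm_sq, b.norm_eq_one]; norm_num
    have h22 : inner ℝ (b 2) (b 2) = (1 : ℝ) := by
      rw [real_inner_self_eq_norm_sq, b.norm_eq_one]; norm_num
    have h12 : inner ℝ (b 1) (b 2) = (0 : ℝ) := b.inner_eq_zero (by decide)
    have h21 : inner ℝ (b 2) (b 1) = (0 : ℝ) := b.inner_eq_zero (by decide)
    have hsq : ‖Real.cos φ • b 1 + Real.sin φ • b 2‖ ^ 2 = 1 := by
      rw [← real_inner_self_eq_norm_sq, inner_add_left, inner_add_right, inner_add_right]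
      simp only [real_inner_smul_left, real_inner_smul_right, h11, h22, h12, h21]
      nlinarith [Real.sin_sq_add_cos_sq φ]
    have h0 : 0 ≤ ‖Real.cos φ • b 1 + Real.sin φ • b 2‖ := norm_nonneg _
    nlinarith
  · have h01 : inner ℝ (b 0) (b 1) = (0 : ℝ) := b.inner_eq_zero (by decide)
    have h02 : inner ℝ (b 0) (b 2) = (0 : ℝ) := b.inner_eq_zero (by decide)
    rw [inner_add_right, real_inner_smul_right, real_inner_smul_right, h01, h02]
    ring

end Pool.Agent.helper53.Bru
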