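import Pool.Agent.helper53.Bru.Fin2
import Pool.Agent.helper53.Bru.Sph

/-!
# BRU-9: the inequality for one point
-/

set_option autoImplicit false

namespace Pool.Agent.helper53.Bru

open SimpleGraph MeasureTheory Pool.Agent.helper79.Mst Pool.Agent.helper62.Brd
open scoped ENNReal

variable {V : Type} [Fintype V]

/-- The volume and the cost which belong to `p`. -/
noncomputable def GG (x : V → E3) (i : V → ℕ) (o p : V) (y : E3) : ℝ≥0∞ :=
  ENNReal.ofReal (6 / Real.pi) * (Cell x i p ∩ shell x (67 / 250)).indicator 1 y +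
    ENNReal.ofReal (3 / (4 * Real.pi)) *
      ((Metric.ball (0 : E3) 1).indicator 1 y * ENNReal.ofReal (phi (cost x i o y p)))

/-- The part of the unit ball which belongs to `p`. -/
noncomputable def HH (x : V → E3) (i : V → ℕ) (p : V) (y : E3) : ℝ≥0∞ :=
  ENNReal.ofReal (99 / (8 * Real.pi)) * (Cell x i p ∩ Metric.ball (0 : E3) 1).indicator 1 y

private theorem Fin3_beats (x : V → E3) (i : V → ℕ) {z : E3} {t : ℝ} (ht : 0 < t) (q p : V) :
    Beats x i (t • z) q p ↔ Beats x i z q p := by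
  unfold Beats
  rw [real_inner_smul_right, real_inner_smul_right]
  rw [mul_lt_mul_iff_right₀ ht, mul_right_inj' ht.ne']

private theorem Fin3_cell (x : V → E3) (i : V → ℕ) (p : V) {z : E3} {t : ℝ} (ht : 0 < t) :
    t • z ∈ Cell x i p ↔ z ∈ Cell x i p := by
  unfold Cell
  simp only [Set.mem_ofPred_eq]
  refine forall_congr' fun q => ?_
  rw [Fin3_beats x i ht q p]

theorem measurableSet_cell (x : V → E3) (i : V → ℕ) (p : V) : MeasurableSet (Cell x i p) := by
  have hm : ∀ q : V, Measurable fun z : E3 => inner ℝ (dir (x q)) z := fun q =>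
    (continuous_const.inner continuous_id).measurable
  have hb : ∀ q : V, MeasurableSet {z : E3 | Beats x i z q p} := by
    intro q
    exact (measurableSet_lt (hm p) (hm q)).union
      ((measurableSet_eq_fun (hm p) (hm q)).inter (MeasurableSet.const _))
  have h1 : Cell x i p = ⋂ q, {z : E3 | 67 / 125 ≤ ‖x q‖ → ¬ Beats x i z q p} := by
    ext z
    simp [Cell]
  rw [h1]
  refine MeasurableSet.iInter fun q => ?_
  by_cases hq : 67 / 125 ≤ ‖x q‖
  · have h2 : {z : E3 | 67 / 125 ≤ ‖x q‖ → ¬ Beats x i z q p} = {z : E3 | Beats x i z q p}ᶜ := by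
      ext z
      simp [hq]
    rw [h2]
    exact (hb q).compl
  · have h2 : {z : E3 | 67 / 125 ≤ ‖x q‖ → ¬ Beats x i z q p} = Set.univ := by
      ext z
      simp [hq]
    rw [h2]
    exact MeasurableSet.univ

private theorem Fin3_shell (x : V → E3) (ρ : ℝ) : MeasurableSet (shell x ρ) := by
  have h1 : shell x ρ = {y | ρ < ‖y‖} ∩ ⋃ b, {y | Dist.dist y (x b) < ρ} := by
    ext y
    simp [shell]
  rw [h1]
  refine ((isOpen_lt continuous_const continuous_norm).inter (isOpen_iUnion fun b => ?_)).measurableSet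
  exact isOpen_lt (continuous_id.dist continuous_const) continuous_const

private theorem Fin3_phi : Measurable phi := by
  unfold phi
  fun_prop

private theorem Fin3_cost (x : V → E3) (i : V → ℕ) (o p : V) :
    Measurable fun y : E3 => ENNReal.ofReal (phi (cost x i o y p)) :=
  ENNReal.measurable_ofReal.comp (Fin3_phi.comp (measurable_cost x i o p))

private theorem Fin3_GG (x : V → E3) (i : V → ℕ) (o p : V) : Measurable (GG x i o p) := by
  have h1 : Measurable ((Cell x i p ∩ shell x (67 / 250)).indicator (1 : E3 → ℝ≥0∞)) :=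
    measurable_one.indicator ((measurableSet_cell x i p).inter (Fin3_shell x _))
  have h2 : Measurable ((Metric.ball (0 : E3) 1).indicator (1 : E3 → ℝ≥0∞)) :=
    measurable_one.indicator measurableSet_ball
  exact (h1.const_mul _).add ((h2.mul (Fin3_cost x i o p)).const_mul _)

private theorem Fin3_HH (x : V → E3) (i : V → ℕ) (p : V) : Measurable (HH x i p) := by
  have h1 : Measurable ((Cell x i p ∩ Metric.ball (0 : E3) 1).indicator (1 : E3 → ℝ≥0∞)) :=
    measurable_one.indicator ((measurableSet_cell x i p).inter measurableSet_ball)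
  exact h1.const_mul _

private theorem Fin3_third :
    ∫⁻ τ in Set.Ioi (0 : ℝ), ENNReal.ofReal (τ ^ 2) * (Set.Iio (1 : ℝ)).indicator 1 τ =
      ENNReal.ofReal (1 / 3) := by
  have h1 : ∫⁻ τ in Set.Ioi (0 : ℝ), ENNReal.ofReal (τ ^ 2) * (Set.Iio (1 : ℝ)).indicator 1 τ =
      ∫⁻ τ in Set.Ioo (0 : ℝ) 1, ENNReal.ofReal (τ ^ 2) := by
    rw [← lintegral_indicator measurableSet_Ioi, ← lintegral_indicator measurableSet_Ioo]
    refine lintegral_congr fun τ => ?_
    by_cases h0 : 0 < τ <;> by_cases h1 : τ < 1 <;> simp [Set.indicator, h0, h1]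
  have h2 : IntegrableOn (fun τ : ℝ => τ ^ 2) (Set.Ioc 0 1) :=
    ((continuous_pow 2).integrableOn_Icc).mono_set Set.Ioc_subset_Icc_self
  rw [h1, setLIntegral_congr Ioo_ae_eq_Ioc,
    ← ofReal_integral_eq_lintegral_ofReal h2 (Filter.Eventually.of_forall fun τ => sq_nonneg τ),
    ← intervalIntegral.integral_of_le zero_le_one, integral_pow]
  norm_num

private theorem Fin3_sin {s : ℝ} (h0 : 0 ≤ s) (h1 : s ≤ Real.pi) :
    ∫⁻ θ in Set.Ioo 0 s, ENNReal.ofReal (Real.sin θ) = ENNReal.ofReal (1 - Real.cos s) := by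
  have h2 : IntegrableOn (fun θ : ℝ => Real.sin θ) (Set.Ioc 0 s) :=
    (Real.continuous_sin.integrableOn_Icc).mono_set Set.Ioc_subset_Icc_self
  have h3 : ∀ᵐ θ ∂(volume.restrict (Set.Ioc 0 s)), 0 ≤ Real.sin θ := by
    refine (ae_restrict_iff' measurableSet_Ioc).2 (Filter.Eventually.of_forall fun θ hθ => ?_)
    exact Real.sin_nonneg_of_nonneg_of_le_pi hθ.1.le (hθ.2.trans h1)
  rw [setLIntegral_congr Ioo_ae_eq_Ioc, ← ofReal_integral_eq_lintegral_ofReal h2 h3,
    ← intervalIntegral.integral_of_le h0, integral_sin, Real.cos_zero]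

private theorem Fin3_inG (x : V → E3) (i : V → ℕ) (o p : V) {γ : E3} (hγ : ‖γ‖ = 1) {σ : ℝ}
    (hσ : 0 ≤ σ) :
    ∫⁻ τ in Set.Ioi (0 : ℝ), ENNReal.ofReal (τ ^ 2 * σ) * GG x i o p (τ • γ) =
      ENNReal.ofReal (6 / Real.pi) * (ENNReal.ofReal σ *
        ((Cell x i p).indicator 1 γ * rad x (67 / 250) γ)) +
      ENNReal.ofReal (1 / (4 * Real.pi)) *
        (ENNReal.ofReal σ * ENNReal.ofReal (phi (cost x i o γ p))) := by
  have hpi := Real.pi_pos
  have h1 : ∫⁻ τ in Set.Ioi (0 : ℝ), ENNReal.ofReal (τ ^ 2 * σ) * GG x i o p (τ • γ) =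
      ∫⁻ τ in Set.Ioi (0 : ℝ), ((ENNReal.ofReal (6 / Real.pi) * (ENNReal.ofReal σ *
        (Cell x i p).indicator 1 γ)) * (ENNReal.ofReal (τ ^ 2) *
          (shell x (67 / 250)).indicator 1 (τ • γ)) +
        (ENNReal.ofReal (3 / (4 * Real.pi)) *
        (ENNReal.ofReal σ * ENNReal.ofReal (phi (cost x i o γ p)))) *
          (ENNReal.ofReal (τ ^ 2) * (Set.Iio (1 : ℝ)).indicator 1 τ)) := by
    refine setLIntegral_congr_fun measurableSet_Ioi fun τ hτ => ?_
    have hτ' : 0 < τ := hτ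
    have h2 : (Cell x i p ∩ shell x (67 / 250)).indicator (1 : E3 → ℝ≥0∞) (τ • γ) =
        (Cell x i p).indicator 1 γ * (shell x (67 / 250)).indicator 1 (τ • γ) := by
      have h3 := Fin3_cell x i p (z := γ) hτ'
      by_cases h4 : γ ∈ Cell x i p <;> by_cases h5 : τ • γ ∈ shell x (67 / 250) <;>
        simp [Set.indicator, h3, h4, h5]
    have h3 : (Metric.ball (0 : E3) 1).indicator (1 : E3 → ℝ≥0∞) (τ • γ) =
        (Set.Iio (1 : ℝ)).indicator 1 τ := by
      have h4 : ‖τ • γ‖ = τ := by rw [norm_smul, hγ, mul_one, Real.norm_of_nonneg hτ'.le]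
      by_cases h5 : τ < 1 <;> simp [Set.indicator, h4, h5]
    simp only [GG]
    rw [h2, h3, cost_smul x i o p γ hτ', ENNReal.ofReal_mul (sq_nonneg τ)]
    ring
  have hc : Continuous fun τ : ℝ => τ • γ := by fun_prop
  have hm1 : Measurable fun τ : ℝ => ENNReal.ofReal (τ ^ 2) *
      (shell x (67 / 250)).indicator (1 : E3 → ℝ≥0∞) (τ • γ) :=
    (ENNReal.measurable_ofReal.comp (by fun_prop)).mul
      ((measurable_one.indicator (Fin3_shell x _)).comp hc.measurable)
  rw [h1, lintegral_add_left (hm1.const_mul _), lintegral_const_mul _ hm1,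
    lintegral_const_mul' _ _ (by
      refine ENNReal.mul_ne_top ENNReal.ofReal_ne_top
        (ENNReal.mul_ne_top ENNReal.ofReal_ne_top ENNReal.ofReal_ne_top)), Fin3_third]
  have h4 : ENNReal.ofReal (3 / (4 * Real.pi)) * ENNReal.ofReal (1 / 3) =
      ENNReal.ofReal (1 / (4 * Real.pi)) := by
    rw [← ENNReal.ofReal_mul (by positivity)]
    congr 1
    field_simp
  rw [← h4]
  unfold rad
  ring

private theorem Fin3_inH (x : V → E3) (i : V → ℕ) (p : V) {γ : E3} (hγ : ‖γ‖ = 1)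
    (hc : γ ∈ Cell x i p) {σ : ℝ} :
    ENNReal.ofReal (33 / (8 * Real.pi)) * ENNReal.ofReal σ ≤
    ∫⁻ τ in Set.Ioi (0 : ℝ), ENNReal.ofReal (τ ^ 2 * σ) * HH x i p (τ • γ) := by
  have hpi := Real.pi_pos
  have h1 : ∫⁻ τ in Set.Ioi (0 : ℝ), ENNReal.ofReal (τ ^ 2 * σ) * HH x i p (τ • γ) =
      ∫⁻ τ in Set.Ioi (0 : ℝ), (ENNReal.ofReal (99 / (8 * Real.pi)) * ENNReal.ofReal σ) *
        (ENNReal.ofReal (τ ^ 2) * (Set.Iio (1 : ℝ)).indicator 1 τ) := by
    refine setLIntegral_congr_fun measurableSet_Ioi fun τ hτ => ?_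
    have hτ' : 0 < τ := hτ
    have h3 : (Cell x i p ∩ Metric.ball (0 : E3) 1).indicator (1 : E3 → ℝ≥0∞) (τ • γ) =
        (Set.Iio (1 : ℝ)).indicator 1 τ := by
      have h4 : ‖τ • γ‖ = τ := by rw [norm_smul, hγ, mul_one, Real.norm_of_nonneg hτ'.le]
      have h6 := (Fin3_cell x i p (z := γ) hτ').2 hc
      by_cases h5 : τ < 1 <;> simp [Set.indicator, h4, h5, h6]
    simp only [HH]
    rw [h3, ENNReal.ofReal_mul (sq_nonneg τ)]
    ring
  rw [h1, lintegral_const_mul' _ _ (ENNReal.mul_ne_top ENNReal.ofReal_ne_top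
    ENNReal.ofReal_ne_top), Fin3_third]
  have h4 : ENNReal.ofReal (99 / (8 * Real.pi)) * ENNReal.ofReal (1 / 3) =
      ENNReal.ofReal (33 / (8 * Real.pi)) := by
    rw [← ENNReal.ofReal_mul (by positivity)]
    congr 1
    field_simp
    norm_num
  rw [← h4]
  apply le_of_eq
  ring

/-- PROOF. `lintegral_mono_sph` with `u = dir (x p)`, `‖u‖ = 1` (`norm_dir`). Let `e` be a unit
vector orthogonal to `u`, `γ θ = gam u e θ` (`‖γ θ‖ = 1`), `s` from `point_sector`. For `τ > 0`:
`τ • γ ∈ Cell ↔ γ ∈ Cell`, `cost x i o (τ • γ) p = cost x i o γ p` (`cost_smul`),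
`τ • γ ∈ ball 0 1 ↔ τ < 1`, `∫⁻ τ in Ioi 0, ofReal (τ ^ 2) * (Iio 1).indicator 1 τ = ofReal (1/3)`.
So for `0 < θ < s` the inner integral of `GG` is
`ofReal (sin θ) * (ofReal (6 / π) * rad x ρ (γ θ) + ofReal (1 / (4 π)) * C θ)`, with
`C θ = ofReal (phi (cost x i o (γ θ) p))`, and for `s < θ < π` it is
`ofReal (sin θ) * (ofReal (1 / (4 π)) * C θ)`; the inner integral of `HH` is
`ofReal (sin θ) * ofReal (33 / (8 π))` for `θ < s` and `0` for `θ > s` (the point `θ = s` is a null
set). Hence the left hand side is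
`ofReal (1 / (2 π)) * (12 * ∫⁻ θ in Ioo 0 s, ofReal (sin θ) * rad x ρ (γ θ) +
(∫⁻ θ in Ioo 0 π, ofReal (sin θ) * C θ) / 2)` and the right hand side is
`ofReal (33 / (8 π)) * ofReal (1 - cos s)`; apply `point_sector`. Measurability: `measurable_cost`,
`measurableSet_cell`, `shell` is open (see `measurable_rad` in Radial), `phi` is continuous. -/
theorem point_ineq {x : V → E3} {o p : V} (hx : InBall x o) (i : V → ℕ)
    (hp : 67 / 125 ≤ ‖x p‖) : ∫⁻ y, GG x i o p y ≤ ∫⁻ y, HH x i p y := by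
  have hpi := Real.pi_pos
  have hp0 : x p ≠ 0 := by
    intro h0
    rw [h0, norm_zero] at hp
    norm_num at hp
  have hu : ‖dir (x p)‖ = 1 := norm_dir hp0
  refine lintegral_mono_sph hu (Fin3_GG x i o p) (Fin3_HH x i p) fun e he hue => ?_
  obtain ⟨s, hs0, hs1, hin, hout, hint⟩ := point_sector hx i hp he hue
  have hγ : ∀ θ, ‖gam (dir (x p)) e θ‖ = 1 := fun θ => norm_gam hu he hue θ
  have hcg : Continuous fun θ : ℝ => gam (dir (x p)) e θ := by
    unfold gam
    fun_prop
  have hmc : Measurable fun θ : ℝ => ENNReal.ofReal (Real.sin θ) *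
      ENNReal.ofReal (phi (cost x i o (gam (dir (x p)) e θ) p)) :=
    (ENNReal.measurable_ofReal.comp Real.measurable_sin).mul
      ((Fin3_cost x i o p).comp hcg.measurable)
  have hL : ∫⁻ θ in Set.Ioo 0 Real.pi, ∫⁻ τ in Set.Ioi (0 : ℝ),
        ENNReal.ofReal (τ ^ 2 * Real.sin θ) * GG x i o p (τ • gam (dir (x p)) e θ) =
      ∫⁻ θ in Set.Ioo 0 Real.pi, (ENNReal.ofReal (6 / Real.pi) * (ENNReal.ofReal (Real.sin θ) *
        ((Cell x i p).indicator 1 (gam (dir (x p)) e θ) *
          rad x (67 / 250) (gam (dir (x p)) e θ))) +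
        ENNReal.ofReal (1 / (4 * Real.pi)) * (ENNReal.ofReal (Real.sin θ) *
          ENNReal.ofReal (phi (cost x i o (gam (dir (x p)) e θ) p)))) := by
    refine setLIntegral_congr_fun measurableSet_Ioo fun θ hθ => ?_
    exact Fin3_inG x i o p (hγ θ) (Real.sin_nonneg_of_nonneg_of_le_pi hθ.1.le hθ.2.le)
  have hI : ∫⁻ θ in Set.Ioo 0 Real.pi, (ENNReal.ofReal (Real.sin θ) *
        ((Cell x i p).indicator 1 (gam (dir (x p)) e θ) *
          rad x (67 / 250) (gam (dir (x p)) e θ))) ≤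
      ∫⁻ θ in Set.Ioo 0 s, ENNReal.ofReal (Real.sin θ) *
        rad x (67 / 250) (gam (dir (x p)) e θ) := by
    rw [setLIntegral_congr (Ioo_ae_eq_Ioc (a := (0 : ℝ)) (b := s)),
      ← lintegral_indicator measurableSet_Ioo, ← lintegral_indicator measurableSet_Ioc]
    refine lintegral_mono fun θ => ?_
    by_cases h1 : θ ∈ Set.Ioo 0 Real.pi
    · rw [Set.indicator_of_mem h1]
      rcases le_or_gt θ s with h2 | h2
      · rw [Set.indicator_of_mem (show θ ∈ Set.Ioc 0 s from ⟨h1.1, h2⟩)]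
        gcongr
        calc (Cell x i p).indicator 1 (gam (dir (x p)) e θ) *
              rad x (67 / 250) (gam (dir (x p)) e θ)
            ≤ 1 * rad x (67 / 250) (gam (dir (x p)) e θ) := by
              gcongr
              exact Set.indicator_le_self' (fun _ _ => zero_le) _
          _ = _ := one_mul _
      · rw [Set.indicator_of_notMem (hout θ h2 h1.2), zero_mul, mul_zero]
        exact zero_le
    · rw [Set.indicator_of_notMem h1]
      exact zero_le
  have hR : ENNReal.ofReal (33 / (8 * Real.pi)) * ENNReal.ofReal (1 - Real.cos s) ≤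
      ∫⁻ θ in Set.Ioo 0 Real.pi, ∫⁻ τ in Set.Ioi (0 : ℝ),
        ENNReal.ofReal (τ ^ 2 * Real.sin θ) * HH x i p (τ • gam (dir (x p)) e θ) := by
    rw [← Fin3_sin hs0 hs1, ← lintegral_const_mul' _ _ ENNReal.ofReal_ne_top]
    refine le_trans ?_ (lintegral_mono_set (Set.Ioo_subset_Ioo_right hs1))
    refine setLIntegral_mono' measurableSet_Ioo fun θ hθ => ?_
    exact Fin3_inH x i p (hγ θ) (hin θ hθ.1 hθ.2)
  refine le_trans (le_of_eq hL) (le_trans ?_ hR)
  rw [lintegral_add_right _ (hmc.const_mul _), lintegral_const_mul' _ _ ENNReal.ofReal_ne_top,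
    lintegral_const_mul' _ _ ENNReal.ofReal_ne_top]
  have e1 : ENNReal.ofReal (6 / Real.pi) = ENNReal.ofReal (1 / (2 * Real.pi)) * 12 := by
    rw [show (12 : ℝ≥0∞) = ENNReal.ofReal 12 by norm_num, ← ENNReal.ofReal_mul (by positivity)]
    congr 1
    field_simp
    norm_num
  have e2 : ENNReal.ofReal (1 / (4 * Real.pi)) = ENNReal.ofReal (1 / (2 * Real.pi)) * 2⁻¹ := by
    rw [show (2⁻¹ : ℝ≥0∞) = ENNReal.ofReal (2⁻¹) by
      rw [ENNReal.ofReal_inv_of_pos (by norm_num)]; norm_num, ← ENNReal.ofReal_mul (by positivity)]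
    congr 1
    field_simp
    norm_num
  have e3 : ENNReal.ofReal (33 / (8 * Real.pi)) * ENNReal.ofReal (1 - Real.cos s) =
      ENNReal.ofReal (1 / (2 * Real.pi)) * ENNReal.ofReal (33 / 4 * (1 - Real.cos s)) := by
    rw [← ENNReal.ofReal_mul (by positivity), ← ENNReal.ofReal_mul (by positivity)]
    congr 1
    field_simp
    ring
  rw [e3, e1, e2, mul_assoc, mul_assoc, ← mul_add]
  refine mul_le_mul_right ?_ _
  refine le_trans ?_ hint
  rw [ENNReal.div_eq_inv_mul]
  gcongr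

end Pool.Agent.helper53.Bru
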