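import Pool.Agent.helper53.Bru.Count

/-!
# BRU-3: short scales, translated Voronoi cells
-/

set_option autoImplicit false

namespace Pool.Agent.helper53.Bru

open SimpleGraph MeasureTheory Pool.Agent.helper79.Mst Pool.Agent.helper62.Brd

variable {V : Type} [Fintype V]

/-- The open Voronoi cell. -/
private def Vol_cell (x : V → E3) (p : V) : Set E3 :=
  {y | ∀ q, q ≠ p → dist y (x p) < dist y (x q)}

private lemma Vol_open (x : V → E3) (p : V) : IsOpen (Vol_cell x p) := by
  have h : Vol_cell x p = ⋂ q, ⋂ (_ : q ≠ p), {y : E3 | dist y (x p) < dist y (x q)} := by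
    ext y; simp [Vol_cell]
  rw [h]
  refine isOpen_iInter_of_finite fun q => isOpen_iInter_of_finite fun _ => ?_
  exact isOpen_lt (continuous_id.dist continuous_const) (continuous_id.dist continuous_const)

private lemma Vol_disj (x : V → E3) (ρ : ℝ) :
    Pairwise (Function.onFun Disjoint fun p => Vol_cell x p ∩ Metric.ball (x p) ρ) := by
  intro p q hpq
  rw [Function.onFun, Set.disjoint_left]
  rintro y ⟨h1, _⟩ ⟨h2, _⟩
  exact lt_asymm (h1 q hpq.symm) (h2 p hpq)

private lemma Vol_key {x : V → E3} (hx : Function.Injective x) (w : E3) (p : V)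
    (h : ∀ q, dist (x p) (x q) ≤ 2 * ‖w‖ → inner ℝ (x q) w ≤ inner ℝ (x p) w) :
    x p + w ∈ Vol_cell x p := by
  intro q hq
  by_contra hc
  rw [not_lt] at hc
  have hd : x q - x p ≠ 0 := sub_ne_zero.2 fun h => hq (hx h)
  have h1 : dist (x p + w) (x p) = ‖w‖ := by rw [dist_eq_norm]; simp
  have h2 : dist (x p + w) (x q) = ‖(x q - x p) - w‖ := by
    rw [dist_eq_norm, ← norm_neg]; congr 1; abel
  rw [h1, h2] at hc
  have h3 : dist (x p) (x q) ≤ 2 * ‖w‖ := by
    rw [_root_.dist_comm, dist_eq_norm]
    have := norm_add_le ((x q - x p) - w) w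
    rw [sub_add_cancel] at this
    linarith
  have h4 := h q h3
  have h5 : ‖(x q - x p) - w‖ ^ 2 = ‖x q - x p‖ ^ 2 - 2 * inner ℝ (x q - x p) w + ‖w‖ ^ 2 :=
    norm_sub_sq_real _ _
  have h6 : ‖(x q - x p) - w‖ ^ 2 ≤ ‖w‖ ^ 2 := pow_le_pow_left₀ (norm_nonneg _) hc 2
  have h7 : inner ℝ (x q - x p) w ≤ 0 := by
    rw [inner_sub_left]; linarith
  have h8 : 0 < ‖x q - x p‖ ^ 2 := by positivity
  linarith

private lemma Vol_edgeLen_nonneg (x : V → E3) (e : Sym2 V) : 0 ≤ edgeLen x e := by
  induction e using Sym2.ind with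
  | _ u v => exact dist_nonneg (x := x u) (y := x v)

/-- PROOF. Let `U p = {y | ∀ q ≠ p, dist y (x p) < dist y (x q)}` (open Voronoi cells: open sets,
pairwise disjoint). For every `w` apply `count_all` with `r = 2 ‖w‖` and `f p = inner ℝ (x p) w`:
the number of edges longer than `2 ‖w‖`, plus `1`, is at most the number of `p` such that
`inner (x q) w ≤ inner (x p) w` for all `q` with `dist (x p) (x q) ≤ 2 ‖w‖`. Every such `p` has
`x p + w ∈ U p`: otherwise there is `q ≠ p` with `dist (x p + w) (x q) ≤ ‖w‖`, so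
`dist (x p) (x q) ≤ 2 ‖w‖` and with `d = x q - x p ≠ 0` (for `x q = x p` see below)
`‖d - w‖ ≤ ‖w‖`, `‖d‖ ^ 2 ≤ 2 inner d w ≤ 0`, a contradiction. (If `x` is not injective: `U p`
should be the set of `y` with `dist y (x p) < dist y (x q)` for all `q` with `x q ≠ x p`; to avoid
this the hypothesis `hx` is there.) Now integrate over the ball `‖w‖ < ρ`: the left hand side gives
`∑ volume (ball 0 (min (edgeLen x e / 2) ρ)) + volume (ball 0 ρ)`, the right hand side is at most
`∑ p, volume (U p ∩ ball (x p) ρ) ≤ volume (⋃ p, ball (x p) ρ)`. The volume of a ball of radius `r`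
is `4 / 3 π r ^ 3` (`EuclideanSpace.volume_ball_fin_three` or `EuclideanSpace.volume_ball`, as in
`Pool/Agent/helper62/Brd/Pack.lean`); multiply by `6 / π`. -/
theorem vol_small {x : V → E3} (hx : Function.Injective x) {T : SimpleGraph V} (hT : IsMST x T)
    {ρ : ℝ} (hρ : 0 < ρ) :
    (∑ᶠ e ∈ T.edgeSet, min (edgeLen x e) (2 * ρ) ^ 3) + (2 * ρ) ^ 3 ≤
      6 / Real.pi * (volume (⋃ p, Metric.ball (x p) ρ)).toReal := by
  classical
  rw [finsum_mem_eq_finite_toFinset_sum _ (Set.toFinite T.edgeSet)]
  set F := (Set.toFinite T.edgeSet).toFinset with hF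
  have hmem : ∀ e, e ∈ F ↔ e ∈ T.edgeSet := fun e => Set.Finite.mem_toFinset _
  have key : ∀ w : E3, (F.filter fun e => 2 * ‖w‖ < edgeLen x e).card + 1 ≤
      (Finset.univ.filter fun p => x p + w ∈ Vol_cell x p).card := by
    intro w
    have h1 := count_all hT (r := 2 * ‖w‖) (by positivity) (fun p => inner ℝ (x p) w)
    have h2 : {e | e ∈ T.edgeSet ∧ 2 * ‖w‖ < edgeLen x e} =
        ((F.filter fun e => 2 * ‖w‖ < edgeLen x e : Finset (Sym2 V)) : Set (Sym2 V)) := by
      ext e; simp [hmem]
    rw [h2, Set.ncard_coe_finset] at h1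
    refine h1.trans ?_
    rw [← Set.ncard_coe_finset]
    refine Set.ncard_le_ncard (fun p hp => ?_) (Set.toFinite _)
    simp only [Finset.coe_filter, Finset.mem_univ, true_and, Set.mem_setOf_eq]
    exact Vol_key hx w p hp
  -- the integrands
  set L : E3 → ENNReal := fun w => (∑ e ∈ F,
    (Metric.ball (0 : E3) (min (edgeLen x e / 2) ρ)).indicator 1 w) +
      (Metric.ball (0 : E3) ρ).indicator 1 w with hL
  set R : E3 → ENNReal := fun w => ∑ p, ((fun w => x p + w) ⁻¹'
    (Vol_cell x p ∩ Metric.ball (x p) ρ)).indicator 1 w with hR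
  have hLR : ∀ w, L w ≤ R w := by
    intro w
    by_cases hw : ‖w‖ < ρ
    · have h1 : L w = (((F.filter fun e => 2 * ‖w‖ < edgeLen x e).card + 1 : ℕ) : ENNReal) := by
        rw [hL]
        simp only [Nat.cast_add, Nat.cast_one]
        congr 1
        · rw [Finset.card_filter, Nat.cast_sum]
          refine Finset.sum_congr rfl fun e _ => ?_
          by_cases h : 2 * ‖w‖ < edgeLen x e
          · rw [if_pos h, Set.indicator_of_mem]
            · simp
            · rw [mem_ball_zero_iff, lt_min_iff]
              exact ⟨by linarith, hw⟩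
          · rw [if_neg h, Set.indicator_of_notMem]
            · simp
            · rw [mem_ball_zero_iff, lt_min_iff]
              intro h'
              exact h (by linarith [h'.1])
        · rw [Set.indicator_of_mem (mem_ball_zero_iff.2 hw)]
          rfl
      have h2 : R w = (((Finset.univ.filter fun p => x p + w ∈ Vol_cell x p).card : ℕ) :
          ENNReal) := by
        rw [hR, Finset.card_filter, Nat.cast_sum]
        refine Finset.sum_congr rfl fun p _ => ?_
        by_cases h : x p + w ∈ Vol_cell x p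
        · rw [if_pos h, Set.indicator_of_mem]
          · simp
          · refine ⟨h, ?_⟩
            rw [Metric.mem_ball, dist_eq_norm]
            simpa using hw
        · rw [if_neg h, Set.indicator_of_notMem]
          · simp
          · exact fun h' => h h'.1
      rw [h1, h2]
      exact_mod_cast key w
    · have h1 : L w = 0 := by
        rw [hL]
        simp only [add_eq_zero, Finset.sum_eq_zero_iff]
        constructor
        · intro e _
          rw [Set.indicator_of_notMem]
          rw [mem_ball_zero_iff, lt_min_iff]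
          exact fun h => hw h.2
        · rw [Set.indicator_of_notMem]
          rw [mem_ball_zero_iff]
          exact hw
      rw [h1]
      exact bot_le
  have hint : ∫⁻ w, L w ≤ ∫⁻ w, R w := lintegral_mono hLR
  have hball : ∀ r : ℝ, 0 ≤ r → volume (Metric.ball (0 : E3) r) =
      ENNReal.ofReal (4 / 3 * Real.pi * r ^ 3) := by
    intro r hr
    rw [EuclideanSpace.volume_ball_fin_three, ← ENNReal.ofReal_pow hr,
      ← ENNReal.ofReal_mul (by positivity)]
    congr 1
    ring
  have hLi : ∫⁻ w, L w = ENNReal.ofReal ((∑ e ∈ F, 4 / 3 * Real.pi *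
      (min (edgeLen x e / 2) ρ) ^ 3) + 4 / 3 * Real.pi * ρ ^ 3) := by
    have hm : ∀ e ∈ F, 0 ≤ min (edgeLen x e / 2) ρ := fun e _ =>
      le_min (by have := Vol_edgeLen_nonneg x e; positivity) hρ.le
    rw [hL, lintegral_add_right _ (measurable_one.indicator Metric.isOpen_ball.measurableSet),
      lintegral_finset_sum _
        (fun e _ => measurable_one.indicator Metric.isOpen_ball.measurableSet),
      lintegral_indicator_one Metric.isOpen_ball.measurableSet, hball ρ hρ.le,
      ENNReal.ofReal_add (Finset.sum_nonneg fun e he => by have := hm e he; positivity)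
        (by positivity),
      ENNReal.ofReal_sum_of_nonneg (fun e he => by have := hm e he; positivity)]
    congr 1
    refine Finset.sum_congr rfl fun e he => ?_
    rw [lintegral_indicator_one Metric.isOpen_ball.measurableSet, hball _ (hm e he)]
  have hmeas : ∀ p, MeasurableSet (Vol_cell x p ∩ Metric.ball (x p) ρ) := fun p =>
    (Vol_open x p).measurableSet.inter Metric.isOpen_ball.measurableSet
  have hRi : ∫⁻ w, R w ≤ volume (⋃ p, Metric.ball (x p) ρ) := by
    rw [hR, lintegral_finset_sum _
      (fun p _ => measurable_one.indicator (measurable_const_add (x p) (hmeas p)))]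
    have h1 : ∀ p, ∫⁻ w, ((fun w => x p + w) ⁻¹'
        (Vol_cell x p ∩ Metric.ball (x p) ρ)).indicator (1 : E3 → ENNReal) w =
        volume (Vol_cell x p ∩ Metric.ball (x p) ρ) := by
      intro p
      rw [lintegral_indicator_one (measurable_const_add (x p) (hmeas p)),
        measure_preimage_add]
    have h2 : volume (⋃ p, Vol_cell x p ∩ Metric.ball (x p) ρ) =
        ∑ p, volume (Vol_cell x p ∩ Metric.ball (x p) ρ) := by
      rw [measure_iUnion (Vol_disj x ρ) hmeas, tsum_fintype]
    rw [Finset.sum_congr rfl fun p _ => h1 p, ← h2]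
    exact measure_mono (Set.iUnion_mono fun p => Set.inter_subset_right)
  have hfin : volume (⋃ p, Metric.ball (x p) ρ) ≠ ⊤ :=
    (Bornology.isBounded_iUnion.2 fun p => Metric.isBounded_ball).measure_lt_top.ne
  have h3 := (hLi ▸ hint).trans hRi
  rw [← ENNReal.ofReal_toReal hfin, ENNReal.ofReal_le_ofReal_iff ENNReal.toReal_nonneg] at h3
  have h4 : ∀ e ∈ F, min (edgeLen x e) (2 * ρ) ^ 3 =
      6 / Real.pi * (4 / 3 * Real.pi * (min (edgeLen x e / 2) ρ) ^ 3) := by
    intro e _
    have h5 : min (edgeLen x e) (2 * ρ) = 2 * min (edgeLen x e / 2) ρ := by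
      rw [mul_min_of_nonneg _ _ (by norm_num : (0 : ℝ) ≤ 2)]
      congr 1
      ring
    rw [h5]
    field_simp
    ring
  rw [Finset.sum_congr rfl h4, ← Finset.mul_sum]
  have h6 : (2 * ρ) ^ 3 = 6 / Real.pi * (4 / 3 * Real.pi * ρ ^ 3) := by
    field_simp
    ring
  rw [h6, ← mul_add]
  exact mul_le_mul_of_nonneg_left h3 (by positivity)

end Pool.Agent.helper53.Bru
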