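import Pool.Agent.helper53.Bru.Fin3
import Pool.Agent.helper53.Bru.Vol

/-!
# BRU-10: the sum of the cubes of the edges
-/

set_option autoImplicit false

namespace Pool.Agent.helper53.Bru

open SimpleGraph MeasureTheory Pool.Agent.helper79.Mst Pool.Agent.helper62.Brd
open scoped ENNReal

variable {V : Type} [Fintype V]

omit [Fintype V] in
private theorem Fin4_shell_open (x : V → E3) (ρ : ℝ) : IsOpen (shell x ρ) := by
  have h : shell x ρ = {y : E3 | ρ < ‖y‖} ∩ ⋃ b, Metric.ball (x b) ρ := by
    ext y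
    simp [shell]
  rw [h]
  exact (isOpen_lt continuous_const continuous_norm).inter
    (isOpen_iUnion fun b => Metric.isOpen_ball)

private theorem Fin4_ball (r : ℝ) (hr : 0 ≤ r) : volume (Metric.ball (0 : E3) r) =
    ENNReal.ofReal (4 / 3 * Real.pi * r ^ 3) := by
  rw [EuclideanSpace.volume_ball_fin_three, ← ENNReal.ofReal_pow hr,
    ← ENNReal.ofReal_mul (by positivity)]
  congr 1
  ring

private theorem Fin4_cball (r : ℝ) (hr : 0 ≤ r) : volume (Metric.closedBall (0 : E3) r) =
    ENNReal.ofReal (4 / 3 * Real.pi * r ^ 3) := by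
  rw [EuclideanSpace.volume_closedBall_fin_three, ← ENNReal.ofReal_pow hr,
    ← ENNReal.ofReal_mul (by positivity)]
  congr 1
  ring

private theorem Fin4_shell_fin (x : V → E3) (ρ : ℝ) : volume (shell x ρ) ≠ ⊤ := by
  have h : shell x ρ ⊆ ⋃ b, Metric.ball (x b) ρ := by
    rintro y ⟨-, b, hb⟩
    exact Set.mem_iUnion.2 ⟨b, hb⟩
  exact ((Bornology.isBounded_iUnion.2 fun p => Metric.isBounded_ball).subset h).measure_lt_top.ne

omit [Fintype V] in
private theorem Fin4_edge_nonneg (x : V → E3) (e : Sym2 V) : 0 ≤ edgeLen x e := by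
  induction e using Sym2.ind with
  | _ u v => exact dist_nonneg (x := x u) (y := x v)

/-- Step 1. -/
private theorem Fin4_one {x : V → E3} {o : V} {T : SimpleGraph V} (hx : InBall x o)
    (hT : IsMST x T) :
    ∑ᶠ e ∈ T.edgeSet, edgeLen x e ^ 3 ≤
      6 / Real.pi * (volume (shell x (67 / 250))).toReal +
        ∑ᶠ e ∈ T.edgeSet, phi (edgeLen x e) := by
  classical
  have h1 := vol_small hx.inj hT (ρ := 67 / 250) (by norm_num)
  have h2 : ∑ᶠ e ∈ T.edgeSet, edgeLen x e ^ 3 ≤
      (∑ᶠ e ∈ T.edgeSet, min (edgeLen x e) (2 * (67 / 250)) ^ 3) +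
        ∑ᶠ e ∈ T.edgeSet, phi (edgeLen x e) := by
    rw [finsum_mem_eq_finite_toFinset_sum _ (Set.toFinite T.edgeSet),
      finsum_mem_eq_finite_toFinset_sum _ (Set.toFinite T.edgeSet),
      finsum_mem_eq_finite_toFinset_sum _ (Set.toFinite T.edgeSet), ← Finset.sum_add_distrib]
    refine Finset.sum_le_sum fun e _ => ?_
    have h0 := Fin4_edge_nonneg x e
    rcases le_total (edgeLen x e) (2 * (67 / 250)) with h | h
    · rw [min_eq_left h]
      have := phi_nonneg (edgeLen x e)
      linarith
    · rw [min_eq_right h]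
      have h3 : edgeLen x e ^ 3 - (67 / 125) ^ 3 ≤ phi (edgeLen x e) := le_max_right _ _
      have h4 : (2 * (67 / 250) : ℝ) = 67 / 125 := by norm_num
      rw [h4]
      linarith
  have h3 : volume (⋃ p, Metric.ball (x p) (67 / 250)) ≤
      volume (shell x (67 / 250)) + ENNReal.ofReal (4 / 3 * Real.pi * (67 / 250) ^ 3) := by
    rw [← Fin4_cball _ (by norm_num)]
    refine (measure_mono ?_).trans (measure_union_le _ _)
    intro y hy
    obtain ⟨b, hb⟩ := Set.mem_iUnion.1 hy
    rcases lt_or_ge (67 / 250) ‖y‖ with h | h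
    · exact Or.inl ⟨h, b, hb⟩
    · exact Or.inr (mem_closedBall_zero_iff.2 h)
  have h4 : (volume (⋃ p, Metric.ball (x p) (67 / 250))).toReal ≤
      (volume (shell x (67 / 250))).toReal + 4 / 3 * Real.pi * (67 / 250) ^ 3 := by
    have h5 := ENNReal.toReal_mono
      (ENNReal.add_ne_top.2 ⟨Fin4_shell_fin x _, ENNReal.ofReal_ne_top⟩) h3
    rwa [ENNReal.toReal_add (Fin4_shell_fin x _) ENNReal.ofReal_ne_top,
      ENNReal.toReal_ofReal (by positivity)] at h5
  have h5 : 6 / Real.pi * (volume (⋃ p, Metric.ball (x p) (67 / 250))).toReal ≤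
      6 / Real.pi * (volume (shell x (67 / 250))).toReal + (2 * (67 / 250)) ^ 3 := by
    have h6 := mul_le_mul_of_nonneg_left h4 (show (0 : ℝ) ≤ 6 / Real.pi by positivity)
    refine h6.trans (le_of_eq ?_)
    have hpi := Real.pi_ne_zero
    field_simp
    ring
  linarith

/-- Step 2. -/
private theorem Fin4_two {x : V → E3} {o : V} {T : SimpleGraph V} (hx : InBall x o)
    (hT : IsMST x T) (i : V → ℕ) (S : Finset V) (hS : ∀ p, p ∈ S ↔ 67 / 125 ≤ ‖x p‖) (y : E3) :
    ∑ᶠ e ∈ T.edgeSet, phi (edgeLen x e) ≤ ∑ p ∈ S, phi (cost x i o y p) := by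
  classical
  have h1 := sum_le_cost hT i o y (φ := phi) (fun a ha b _ hab => phi_mono ha hab) phi_zero
  refine h1.trans (le_of_eq ?_)
  symm
  refine Finset.sum_subset (Finset.subset_univ _) fun p _ hp => ?_
  rw [hS, not_le] at hp
  have h2 : cost x i o y p ≤ 67 / 125 := by
    refine (cost_le_kap x i o y p).trans ((kap_le_dist x o p).trans ?_)
    rw [hx.center, dist_zero_right]
    exact hp.le
  have h3 := pow_le_pow_left₀ (cost_nonneg x i o y p) h2 3
  unfold phi
  exact max_eq_left (by linarith)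

omit [Fintype V] in
private theorem Fin4_beats (x : V → E3) (i : V → ℕ) (y : E3) (q p : V) :
    Beats x i y q p ↔
      toLex ((inner ℝ (dir (x p)) y : ℝ), i p) < toLex ((inner ℝ (dir (x q)) y : ℝ), i q) := by
  rw [Prod.Lex.toLex_lt_toLex]
  rfl

omit [Fintype V] in
private theorem Fin4_exists (x : V → E3) (i : V → ℕ) (S : Finset V)
    (hS : ∀ p, p ∈ S ↔ 67 / 125 ≤ ‖x p‖) (hne : S.Nonempty) (y : E3) :
    ∃ p ∈ S, y ∈ Cell x i p := by
  obtain ⟨p, hp, hmax⟩ := Finset.exists_max_image S
    (fun p => toLex ((inner ℝ (dir (x p)) y : ℝ), i p)) hne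
  refine ⟨p, hp, fun q hq hb => ?_⟩
  rw [Fin4_beats] at hb
  exact absurd hb (not_lt.2 (hmax q ((hS q).2 hq)))

omit [Fintype V] in
private theorem Fin4_unique (x : V → E3) {i : V → ℕ} (hi : Function.Injective i) (S : Finset V)
    (hS : ∀ p, p ∈ S ↔ 67 / 125 ≤ ‖x p‖) (y : E3) {p q : V} (hp : p ∈ S) (hq : q ∈ S)
    (h1 : y ∈ Cell x i p) (h2 : y ∈ Cell x i q) : p = q := by
  have h3 := h1 q ((hS q).1 hq)
  have h4 := h2 p ((hS p).1 hp)
  rw [Fin4_beats, not_lt] at h3 h4
  have h5 := le_antisymm h3 h4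
  have h6 := congrArg (fun z => (ofLex z).2) h5
  exact (hi h6).symm

private theorem Fin4_phi_meas : Measurable phi := by
  unfold phi
  exact (measurable_const.max ((measurable_id.pow_const 3).sub_const _))

/-- Step 3. -/
private theorem Fin4_three {x : V → E3} {o : V} {T : SimpleGraph V} (hx : InBall x o)
    (hT : IsMST x T) {i : V → ℕ} (hi : Function.Injective i) (S : Finset V)
    (hS : ∀ p, p ∈ S ↔ 67 / 125 ≤ ‖x p‖) (hne : S.Nonempty) :
    6 / Real.pi * (volume (shell x (67 / 250))).toReal +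
        ∑ᶠ e ∈ T.edgeSet, phi (edgeLen x e) ≤ 33 / 2 := by
  classical
  have hpi := Real.pi_pos
  set Φ : ℝ := ∑ᶠ e ∈ T.edgeSet, phi (edgeLen x e) with hΦ
  have hΦ0 : 0 ≤ Φ := by
    rw [hΦ, finsum_mem_eq_finite_toFinset_sum _ (Set.toFinite T.edgeSet)]
    exact Finset.sum_nonneg fun e _ => phi_nonneg _
  have hsh : MeasurableSet (shell x (67 / 250)) := (Fin4_shell_open x _).measurableSet
  have hGm : ∀ p, Measurable fun y => GG x i o p y := by
    intro p
    unfold GG
    refine Measurable.add ?_ ?_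
    · exact (measurable_one.indicator ((measurableSet_cell x i p).inter hsh)).const_mul _
    · exact ((measurable_one.indicator Metric.isOpen_ball.measurableSet).mul
        (Fin4_phi_meas.comp (measurable_cost x i o p)).ennreal_ofReal).const_mul _
  have hHm : ∀ p, Measurable fun y => HH x i p y := by
    intro p
    unfold HH
    exact (measurable_one.indicator
      ((measurableSet_cell x i p).inter Metric.isOpen_ball.measurableSet)).const_mul _
  have hAB : ∫⁻ y, ∑ p ∈ S, GG x i o p y ≤ ∫⁻ y, ∑ p ∈ S, HH x i p y := by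
    rw [lintegral_finsetSum _ fun p _ => hGm p, lintegral_finsetSum _ fun p _ => hHm p]
    exact Finset.sum_le_sum fun p hp => point_ineq hx i ((hS p).1 hp)
  have hlow : ENNReal.ofReal (6 / Real.pi) * volume (shell x (67 / 250)) + ENNReal.ofReal Φ ≤
      ∫⁻ y, ∑ p ∈ S, GG x i o p y := by
    have h1 : ∀ y : E3, ENNReal.ofReal (6 / Real.pi) * (shell x (67 / 250)).indicator 1 y +
        ENNReal.ofReal (3 / (4 * Real.pi)) * ((Metric.ball (0 : E3) 1).indicator 1 y *
          ENNReal.ofReal Φ) ≤ ∑ p ∈ S, GG x i o p y := by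
      intro y
      unfold GG
      rw [Finset.sum_add_distrib, ← Finset.mul_sum, ← Finset.mul_sum, ← Finset.mul_sum]
      refine add_le_add (mul_le_mul_right ?_ _) (mul_le_mul_right (mul_le_mul_right ?_ _) _)
      · by_cases hy : y ∈ shell x (67 / 250)
        · obtain ⟨p, hp, hpy⟩ := Fin4_exists x i S hS hne y
          rw [Set.indicator_of_mem hy]
          have h2 : (Cell x i p ∩ shell x (67 / 250)).indicator (1 : E3 → ℝ≥0∞) y = 1 := by
            rw [Set.indicator_of_mem (show y ∈ Cell x i p ∩ shell x (67 / 250) from ⟨hpy, hy⟩)]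
            rfl
          have h3 := Finset.single_le_sum (f := fun p =>
            (Cell x i p ∩ shell x (67 / 250)).indicator (1 : E3 → ℝ≥0∞) y)
            (fun _ _ => zero_le) hp
          rw [h2] at h3
          exact h3
        · rw [Set.indicator_of_notMem hy]
          exact zero_le
      · rw [← ENNReal.ofReal_sum_of_nonneg fun p _ => phi_nonneg _]
        exact ENNReal.ofReal_le_ofReal (Fin4_two hx hT i S hS y)
    refine le_trans (le_of_eq ?_) (lintegral_mono h1)
    rw [lintegral_add_left ((measurable_one.indicator hsh).const_mul _),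
      lintegral_const_mul _ (measurable_one.indicator hsh), lintegral_indicator_one hsh,
      lintegral_const_mul _ ((measurable_one.indicator Metric.isOpen_ball.measurableSet).mul_const _),
      lintegral_mul_const _ (measurable_one.indicator Metric.isOpen_ball.measurableSet),
      lintegral_indicator_one Metric.isOpen_ball.measurableSet, Fin4_ball 1 zero_le_one]
    congr 1
    rw [← mul_assoc, ← ENNReal.ofReal_mul (by positivity)]
    have h2 : 3 / (4 * Real.pi) * (4 / 3 * Real.pi * 1 ^ 3) = 1 := by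
      field_simp
    rw [h2, ENNReal.ofReal_one, one_mul]
  have hup : ∫⁻ y, ∑ p ∈ S, HH x i p y ≤ ENNReal.ofReal (33 / 2) := by
    have h1 : ∀ y : E3, ∑ p ∈ S, HH x i p y ≤
        ENNReal.ofReal (99 / (8 * Real.pi)) * (Metric.ball (0 : E3) 1).indicator 1 y := by
      intro y
      unfold HH
      rw [← Finset.mul_sum]
      refine mul_le_mul_right ?_ _
      obtain ⟨p, hp, hpy⟩ := Fin4_exists x i S hS hne y
      rw [Finset.sum_eq_single_of_mem p hp fun q hq hqp => ?_]
      · exact Set.indicator_le_indicator_of_subset Set.inter_subset_right (fun _ => zero_le) y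
      · rw [Set.indicator_of_notMem]
        exact fun h => hqp (Fin4_unique x hi S hS y hq hp h.1 hpy)
    refine (lintegral_mono h1).trans (le_of_eq ?_)
    rw [lintegral_const_mul _ (measurable_one.indicator Metric.isOpen_ball.measurableSet),
      lintegral_indicator_one Metric.isOpen_ball.measurableSet, Fin4_ball 1 zero_le_one,
      ← ENNReal.ofReal_mul (by positivity)]
    congr 1
    field_simp
    norm_num
  have hfin := (hlow.trans hAB).trans hup
  have h1 := ENNReal.toReal_mono ENNReal.ofReal_ne_top hfin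
  rw [ENNReal.toReal_add (ENNReal.mul_ne_top ENNReal.ofReal_ne_top (Fin4_shell_fin x _))
    ENNReal.ofReal_ne_top, ENNReal.toReal_mul, ENNReal.toReal_ofReal (by positivity),
    ENNReal.toReal_ofReal hΦ0, ENNReal.toReal_ofReal (by norm_num)] at h1
  exact h1

/-- The sum of the cubes of the edges is at most `33 / 2`. -/
theorem sum_cubes {x : V → E3} {o : V} {T : SimpleGraph V} (hx : InBall x o) (hT : IsMST x T) :
    ∑ᶠ e ∈ T.edgeSet, edgeLen x e ^ 3 ≤ 33 / 2 := by
  classical
  let i : V → ℕ := fun v => (Fintype.equivFin V v : ℕ)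
  have hi : Function.Injective i := fun a b h =>
    (Fintype.equivFin V).injective (Fin.ext h)
  let S : Finset V := Finset.univ.filter fun p => 67 / 125 ≤ ‖x p‖
  have hS : ∀ p, p ∈ S ↔ 67 / 125 ≤ ‖x p‖ := fun p => by simp [S]
  refine (Fin4_one hx hT).trans ?_
  rcases S.eq_empty_or_nonempty with hE | hne
  · have h1 := Fin4_two hx hT i S hS 0
    rw [hE, Finset.sum_empty] at h1
    have h2 : volume (shell x (67 / 250)) ≤
        ENNReal.ofReal (4 / 3 * Real.pi * (67 / 125 + 67 / 250) ^ 3) := by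
      rw [← Fin4_ball _ (by norm_num)]
      refine measure_mono ?_
      rintro y ⟨-, b, hb⟩
      have h3 : ‖x b‖ < 67 / 125 := by
        by_contra h4
        have h5 : b ∈ S := (hS b).2 (not_lt.1 h4)
        rw [hE] at h5
        simp at h5
      rw [mem_ball_zero_iff]
      have h4 : ‖y‖ ≤ dist y (x b) + ‖x b‖ := by
        have := dist_triangle y (x b) 0
        rwa [dist_zero_right, dist_zero_right] at this
      linarith
    have h3 := ENNReal.toReal_mono ENNReal.ofReal_ne_top h2
    rw [ENNReal.toReal_ofReal (by positivity)] at h3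
    have h4 := mul_le_mul_of_nonneg_left h3 (show (0 : ℝ) ≤ 6 / Real.pi by positivity)
    have h5 : 6 / Real.pi * (4 / 3 * Real.pi * (67 / 125 + 67 / 250) ^ 3) =
        8 * (67 / 125 + 67 / 250) ^ 3 := by
      have hpi := Real.pi_ne_zero
      field_simp
      ring
    rw [h5] at h4
    norm_num at h4 ⊢
    linarith
  · exact Fin4_three hx hT hi S hS hne

theorem rho3_le {α : ℝ} (hα : 3 ≤ α) : rho3 α ≤ ((33 / 2 : ℝ) : EReal) := by
  refine (rho3_antitone (by norm_num) hα).trans ?_
  rw [rho3_eq_sigma (by norm_num)]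
  refine sSup_le ?_
  rintro r ⟨W, hW, x, o, T, hx, hT, rfl⟩
  refine EReal.coe_le_coe_iff.2 ?_
  have h := sum_cubes hx hT
  unfold sumPow
  refine le_trans (le_of_eq ?_) h
  refine finsum_congr fun e => finsum_congr fun _ => ?_
  exact_mod_cast Real.rpow_natCast (edgeLen x e) 3

end Pool.Agent.helper53.Bru
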