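import Pool.Agent.helper53.Bru.Count

/-!
# BRU-2: the bottleneck distance, and the sum over the tree
-/

set_option autoImplicit false

namespace Pool.Agent.helper53.Bru

open SimpleGraph MeasureTheory Pool.Agent.helper79.Mst Pool.Agent.helper62.Brd

variable {V : Type} [Fintype V]

/-- PROOF. `Real.sSup_nonneg`. -/
theorem kap_nonneg (x : V → E3) (o p : V) : 0 ≤ kap x o p := by
  exact Real.sSup_nonneg fun r hr => hr.1

private theorem Kap_reach {x : V → E3} {r : ℝ} {u v : V} (h : dist (x u) (x v) ≤ r) :
    (near x r).Reachable u v := by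
  by_cases huv : u = v
  · subst huv
    exact SimpleGraph.Reachable.refl _
  · exact SimpleGraph.Adj.reachable ⟨huv, h⟩

private theorem Kap_mono (x : V → E3) {r s : ℝ} (h : r ≤ s) : near x r ≤ near x s :=
  fun _ _ huv => ⟨huv.1, huv.2.trans h⟩

private theorem Kap_next (x : V → E3) (r : ℝ) :
    ∃ r' : ℝ, r < r' ∧ ∀ u v : V, dist (x u) (x v) ≤ r' → dist (x u) (x v) ≤ r := by
  have h : ∀ᶠ t in nhdsWithin r (Set.Ioi r), ∀ u v : V,
      dist (x u) (x v) ≤ t → dist (x u) (x v) ≤ r := by
    rw [Filter.eventually_all]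
    intro u
    rw [Filter.eventually_all]
    intro v
    by_cases huv : dist (x u) (x v) ≤ r
    · exact Filter.Eventually.of_forall fun _ _ => huv
    · have h1 : ∀ᶠ t in nhdsWithin r (Set.Ioi r), t < dist (x u) (x v) :=
        (gt_mem_nhds (not_le.1 huv)).filter_mono nhdsWithin_le_nhds
      filter_upwards [h1] with t ht h2
      exact absurd h2 (not_le.2 ht)
  obtain ⟨t, ht, ht'⟩ := (h.and self_mem_nhdsWithin).exists
  exact ⟨t, ht', ht⟩

private theorem Kap_bdd (x : V → E3) (o p : V) :
    ∀ r ∈ {r : ℝ | 0 ≤ r ∧ ¬ (near x r).Reachable p o}, r ≤ dist (x p) (x o) := by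
  rintro r ⟨-, h⟩
  by_contra h1
  exact h (Kap_reach (not_le.1 h1).le)

/-- PROOF. The set `B = {r | 0 ≤ r ∧ ¬ (near x r).Reachable p o}` is bounded above by the largest
distance (or `dist (x p) (x o)`: for `r ≥ dist (x p) (x o)` the vertices are equal or adjacent). It
is closed downwards in `[0, ∞)` (`near x r` is monotone in `r`). It has no largest element: if
`r ∈ B` there is `r' > r` with `near x r' = near x r` (finitely many distances: take `r'` between
`r` and the smallest distance larger than `r`). -/
theorem lt_kap_iff (x : V → E3) (o p : V) {r : ℝ} (hr : 0 ≤ r) :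
    r < kap x o p ↔ ¬ (near x r).Reachable p o := by
  constructor
  · intro h
    have hne : {r : ℝ | 0 ≤ r ∧ ¬ (near x r).Reachable p o}.Nonempty := by
      by_contra h1
      rw [Set.not_nonempty_iff_eq_empty] at h1
      unfold kap at h
      rw [h1, Real.sSup_empty] at h
      linarith
    obtain ⟨b, hb, hrb⟩ := exists_lt_of_lt_csSup hne h
    exact fun hr' => hb.2 (hr'.mono (Kap_mono x hrb.le))
  · intro h
    obtain ⟨r', hr', h1⟩ := Kap_next x r
    refine lt_of_lt_of_le hr' (le_csSup ⟨_, Kap_bdd x o p⟩ ⟨hr.trans hr'.le, fun h2 => h ?_⟩)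
    have hle : near x r' ≤ near x r := fun u v huv => ⟨huv.1, h1 u v huv.2⟩
    exact h2.mono hle

theorem kap_self (x : V → E3) (o : V) : kap x o o = 0 := by
  refine le_antisymm ?_ (kap_nonneg x o o)
  exact Real.sSup_le (fun r hr => absurd (SimpleGraph.Reachable.refl _) hr.2) le_rfl

theorem kap_le_dist (x : V → E3) (o p : V) : kap x o p ≤ dist (x p) (x o) := by
  exact Real.sSup_le (Kap_bdd x o p) dist_nonneg

/-- PROOF. Otherwise `r = max (dist (x q) (x o)) (dist (x p) (x q)) < kap x o p`, but `p` is joined
to `o` through `q` in `near x r`. -/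
theorem kap_far (x : V → E3) {o p q : V} (h : dist (x q) (x o) < kap x o p) :
    kap x o p ≤ dist (x p) (x q) := by
  by_contra h1
  have h1 := not_le.1 h1
  have h2 : max (dist (x q) (x o)) (dist (x p) (x q)) < kap x o p := max_lt h h1
  rw [lt_kap_iff x o p (le_max_of_le_left dist_nonneg)] at h2
  exact h2 ((Kap_reach (le_max_right _ _)).trans (Kap_reach (le_max_left _ _)))

theorem cost_nonneg (x : V → E3) (i : V → ℕ) (o : V) (z : E3) (p : V) :
    0 ≤ cost x i o z p := by
  refine Real.iInf_nonneg fun q => ?_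
  split_ifs
  · exact le_min (kap_nonneg x o p) dist_nonneg
  · exact kap_nonneg x o p

theorem cost_le_kap (x : V → E3) (i : V → ℕ) (o : V) (z : E3) (p : V) :
    cost x i o z p ≤ kap x o p := by
  refine (ciInf_le (Set.finite_range _).bddBelow p).trans ?_
  split_ifs
  · exact min_le_left _ _
  · exact le_rfl

theorem cost_le_dist (x : V → E3) (i : V → ℕ) (o : V) {z : E3} {p q : V}
    (h : Beats x i z q p) : cost x i o z p ≤ dist (x p) (x q) := by
  refine (ciInf_le (Set.finite_range _).bddBelow q).trans ?_
  rw [if_pos h]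
  exact min_le_right _ _

theorem measurable_cost (x : V → E3) (i : V → ℕ) (o p : V) :
    Measurable fun z => cost x i o z p := by
  classical
  refine Measurable.iInf fun q => ?_
  refine Measurable.ite ?_ measurable_const measurable_const
  have h1 : Measurable fun z : E3 => inner ℝ (dir (x p)) z :=
    (continuous_const.inner continuous_id).measurable
  have h2 : Measurable fun z : E3 => inner ℝ (dir (x q)) z :=
    (continuous_const.inner continuous_id).measurable
  refine (measurableSet_lt h1 h2).union ?_
  by_cases hi : i p < i q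
  · have : {z : E3 | inner ℝ (dir (x p)) z = inner ℝ (dir (x q)) z ∧ i p < i q} =
        {z : E3 | inner ℝ (dir (x p)) z = inner ℝ (dir (x q)) z} := by
      ext z
      simp [hi]
    have h3 : MeasurableSet
        {z : E3 | inner ℝ (dir (x p)) z = inner ℝ (dir (x q)) z ∧ i p < i q} := by
      rw [this]
      exact measurableSet_eq_fun h1 h2
    exact h3
  · have : {z : E3 | inner ℝ (dir (x p)) z = inner ℝ (dir (x q)) z ∧ i p < i q} = ∅ := by
      ext z
      simp [hi]
    have h3 : MeasurableSet
        {z : E3 | inner ℝ (dir (x p)) z = inner ℝ (dir (x q)) z ∧ i p < i q} := by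
      rw [this]
      exact MeasurableSet.empty
    exact h3

/-- the cost depends only on the direction -/
theorem cost_smul (x : V → E3) (i : V → ℕ) (o p : V) (z : E3) {t : ℝ} (ht : 0 < t) :
    cost x i o (t • z) p = cost x i o z p := by
  have h : ∀ q, Beats x i (t • z) q p ↔ Beats x i z q p := by
    intro q
    unfold Beats
    rw [real_inner_smul_right, real_inner_smul_right]
    rw [mul_lt_mul_iff_right₀ ht, mul_right_inj' ht.ne']
  unfold cost
  refine iInf_congr fun q => ?_
  by_cases hq : Beats x i z q p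
  · rw [if_pos hq, if_pos ((h q).2 hq)]
  · rw [if_neg hq, if_neg fun h' => hq ((h q).1 h')]

private theorem Kap_dom {A B : Type} [DecidableEq A] [DecidableEq B] {φ : ℝ → ℝ}
    (hφ : MonotoneOn φ (Set.Ici 0)) (h0 : φ 0 = 0) (a : A → ℝ) (b : B → ℝ) :
    ∀ (n : ℕ) (s : Finset A) (t : Finset B), s.card = n → (∀ e ∈ s, 0 ≤ a e) →
      (∀ p ∈ t, 0 ≤ b p) →
      (∀ r : ℝ, 0 ≤ r → (s.filter fun e => r < a e).card ≤ (t.filter fun p => r < b p).card) →
      ∑ e ∈ s, φ (a e) ≤ ∑ p ∈ t, φ (b p) := by
  have hpos : ∀ r : ℝ, 0 ≤ r → 0 ≤ φ r := fun r hr => by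
    have := hφ (Set.mem_Ici.2 le_rfl) (Set.mem_Ici.2 hr) hr
    rwa [h0] at this
  intro n
  induction n with
  | zero =>
    intro s t hs _ hb _
    rw [Finset.card_eq_zero.1 hs, Finset.sum_empty]
    exact Finset.sum_nonneg fun p hp => hpos _ (hb p hp)
  | succ n ih =>
    intro s t hs ha hb hc
    have hne : s.Nonempty := Finset.card_pos.1 (by omega)
    obtain ⟨e, he, hmax⟩ := s.exists_max_image a hne
    rcases (ha e he).eq_or_lt with h | h
    · have hz : ∑ e ∈ s, φ (a e) = 0 := by
        refine Finset.sum_eq_zero fun e' he' => ?_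
        have : a e' = 0 := le_antisymm ((hmax e' he').trans h.symm.le) (ha e' he')
        rw [this, h0]
      rw [hz]
      exact Finset.sum_nonneg fun p hp => hpos _ (hb p hp)
    · have hne' : t.Nonempty := by
        have h1 := hc 0 le_rfl
        have h2 : 0 < (s.filter fun e => (0 : ℝ) < a e).card :=
          Finset.card_pos.2 ⟨e, Finset.mem_filter.2 ⟨he, h⟩⟩
        obtain ⟨p, hp⟩ := Finset.card_pos.1 (h2.trans_le h1)
        exact ⟨p, (Finset.mem_filter.1 hp).1⟩
      obtain ⟨p, hp, hpmax⟩ := t.exists_max_image b hne'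
      have hab : a e ≤ b p := by
        by_contra h1
        have h1 := not_le.1 h1
        have h2 : 0 < (s.filter fun e => b p < a e).card :=
          Finset.card_pos.2 ⟨e, Finset.mem_filter.2 ⟨he, h1⟩⟩
        obtain ⟨p', hp'⟩ := Finset.card_pos.1 (h2.trans_le (hc _ (hb p hp)))
        rw [Finset.mem_filter] at hp'
        exact absurd (hpmax p' hp'.1) (not_le.2 hp'.2)
      rw [← Finset.add_sum_erase s _ he, ← Finset.add_sum_erase t _ hp]
      refine add_le_add (hφ (Set.mem_Ici.2 h.le) (Set.mem_Ici.2 (h.le.trans hab)) hab) ?_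
      refine ih (s.erase e) (t.erase p) (by rw [Finset.card_erase_of_mem he]; omega)
        (fun e' he' => ha e' (Finset.mem_of_mem_erase he'))
        (fun p' hp' => hb p' (Finset.mem_of_mem_erase hp')) fun r hr => ?_
      rcases lt_or_ge r (a e) with h1 | h1
      · have e1 : (s.erase e).filter (fun e => r < a e) = (s.filter fun e => r < a e).erase e := by
          rw [Finset.filter_erase]
        have e2 : (t.erase p).filter (fun p => r < b p) = (t.filter fun p => r < b p).erase p := by
          rw [Finset.filter_erase]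
        rw [e1, e2, Finset.card_erase_of_mem (Finset.mem_filter.2 ⟨he, h1⟩),
          Finset.card_erase_of_mem (Finset.mem_filter.2 ⟨hp, h1.trans_le hab⟩)]
        exact Nat.sub_le_sub_right (hc r hr) 1
      · have e1 : (s.erase e).filter (fun e => r < a e) = ∅ := by
          rw [Finset.filter_eq_empty_iff]
          intro e' he'
          exact not_lt.2 ((hmax e' (Finset.mem_of_mem_erase he')).trans h1)
        rw [e1, Finset.card_empty]
        exact Nat.zero_le _

/-- PROOF. General fact (induction on the number of elements of `A`; or sort; or Hall): if `A`, `B`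
are finite, `a : A → ℝ`, `b : B → ℝ` are nonnegative and for every `r ≥ 0` the number of `e ∈ A`
with `r < a e` is at most the number of `p ∈ B` with `r < b p`, then for every `φ`, monotone on
`[0, ∞)` with `φ 0 = 0`, `∑ φ (a e) ≤ ∑ φ (b p)`. (Induction: take `e` with `a e` maximal; if
`a e = 0` the left hand side is `0`. Otherwise take `p` with `b p` maximal; `a e ≤ b p`, as for
`0 ≤ r < a e` some `p'` has `r < b p'`. Remove `e` and `p`: for `r < a e` both numbers become
smaller by one, for `r ≥ a e` the left number is `0`.) Apply it to `A` = edges of `T`,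
`b = cost x i o z`: for `r ≥ 0` the number of edges longer than `r` is by `count_far`, with
`f p = toLex (inner ℝ (dir (x p)) z, i p)` in `ℝ ×ₗ ℕ` (`f p < f q ↔ Beats x i z q p`), at most the
number of the `p` which are not joined to `o` in `near x r` (`r < kap x o p`) and have
`r < dist (x p) (x q)` for all `q` with `Beats x i z q p`; these have `r < cost x i o z p`. -/
theorem sum_le_cost {x : V → E3} {T : SimpleGraph V} (hT : IsMST x T) (i : V → ℕ) (o : V)
    (z : E3) {φ : ℝ → ℝ} (hφ : MonotoneOn φ (Set.Ici 0)) (h0 : φ 0 = 0) :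
    ∑ᶠ e ∈ T.edgeSet, φ (edgeLen x e) ≤ ∑ p, φ (cost x i o z p) := by
  classical
  rw [finsum_mem_eq_finite_toFinset_sum _ (Set.toFinite T.edgeSet)]
  refine Kap_dom hφ h0 (edgeLen x) (fun p => cost x i o z p) _ _ Finset.univ rfl
    (fun e _ => ?_) (fun p _ => cost_nonneg x i o z p) fun r hr => ?_
  · induction e using Sym2.ind with
    | h u v =>
      change 0 ≤ dist (x u) (x v)
      exact dist_nonneg
  have h1 : ((Set.toFinite T.edgeSet).toFinset.filter fun e => r < edgeLen x e).card =
      {e | e ∈ T.edgeSet ∧ r < edgeLen x e}.ncard := by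
    rw [← Set.ncard_coe_finset]
    congr 1
    ext e
    rw [Finset.coe_filter, Set.mem_ofPred_eq, Set.mem_ofPred_eq, Set.Finite.mem_toFinset]
  rw [h1]
  refine (count_far hT o hr (fun p => toLex (inner ℝ (dir (x p)) z, i p))).trans ?_
  rw [← Set.ncard_coe_finset]
  refine Set.ncard_le_ncard ?_ (Set.toFinite _)
  rintro p ⟨hp1, hp2⟩
  rw [← lt_kap_iff x o p hr] at hp1
  simp only [Finset.coe_filter, Finset.mem_univ, true_and, Set.mem_ofPred_eq]
  have : Nonempty V := ⟨o⟩
  obtain ⟨q, hq⟩ := exists_eq_ciInf_of_finite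
    (f := fun q : V => if Beats x i z q p then min (kap x o p) (dist (x p) (x q)) else kap x o p)
  have hcost : cost x i o z p =
      if Beats x i z q p then min (kap x o p) (dist (x p) (x q)) else kap x o p := hq.symm
  rw [hcost]
  split_ifs with hB
  · refine lt_min hp1 ?_
    by_contra h3
    have h4 := hp2 q (not_lt.1 h3)
    refine absurd h4 (not_le.2 ?_)
    rw [Prod.Lex.toLex_lt_toLex]
    exact hB
  · exact hp1

end Pool.Agent.helper53.Bru
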